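import Pool.Agent.V11271.LI.Pos

set_option autoImplicit false

/-!
# Summability from local counts, and the density condition from density estimates
-/

namespace Pool.Agent.V11271.LI

open Complex Filter Topology
open scoped ComplexConjugate

variable {ι : Type*} {z : ι → ℂ} {m : ι → ℝ}

/-- local bound for the number of points -/
def Loc (z : ι → ℂ) (m : ι → ℝ) : Prop :=
  ∃ C : ℝ, 0 < C ∧ ∀ n : ℤ, ∀ S : Finset ι, (∀ i ∈ S, ⌊(z i).im⌋ = n) →
    ∑ i ∈ S, m i ≤ C * Real.log (2 + |(n : ℝ)|)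

lemma log_le_C {e : ℝ} (he : 0 < e) : ∃ C : ℝ, 0 < C ∧ ∀ x : ℝ, 1 ≤ x → Real.log (1 + x) ≤ C * x ^ e := by
  refine ⟨2 ^ e / e, by positivity, fun x hx => ?_⟩
  have h1 : Real.log (1 + x) ≤ (1 + x) ^ e / e := Real.log_le_rpow_div (by linarith) he
  refine h1.trans ?_
  have h2 : (1 + x) ^ e ≤ (2 * x) ^ e := by
    apply Real.rpow_le_rpow (by linarith) (by linarith) he.le
  rw [Real.mul_rpow (by norm_num) (by linarith)] at h2
  rw [div_mul_eq_mul_div]
  gcongr

lemma summable_int {s : ℝ} (hs : 1 < s) : Summable fun n : ℤ => 1 / (1 + |(n : ℝ)|) ^ s := by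
  have h1 : Summable fun n : ℕ => 1 / (1 + |((n : ℤ) : ℝ)|) ^ s := by
    have h := (summable_nat_add_iff 1).mpr (Real.summable_one_div_nat_rpow.mpr hs)
    refine h.congr fun n => ?_
    push_cast
    rw [abs_of_nonneg (Nat.cast_nonneg n : (0:ℝ) ≤ n), add_comm]
  refine Summable.of_nat_of_neg h1 ?_
  refine h1.congr fun n => ?_
  push_cast
  rw [abs_neg]

/-- summability from local counts -/
lemma sum_of_loc (hm : ∀ i, 0 ≤ m i) (hL : Loc z m) (s : ℝ) (hs : 1 < s) :
    Summable fun i => m i / (1 + |(z i).im|) ^ s := by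
  obtain ⟨C, hC, hloc⟩ := hL
  obtain ⟨e, he⟩ : ∃ e : ℝ, e = (s - 1) / 2 := ⟨_, rfl⟩
  have he0 : 0 < e := by rw [he]; linarith
  obtain ⟨C1, hC1, hlog⟩ := log_le_C he0
  have hsum := summable_int (s := s - e) (by rw [he]; linarith)
  refine summable_of_sum_le (c := C * C1 * 2 ^ s * ∑' n : ℤ, 1 / (1 + |(n : ℝ)|) ^ (s - e))
    (fun i => div_nonneg (hm i) (by positivity)) fun S => ?_
  classical
  rw [← Finset.sum_fiberwise_of_maps_to (g := fun i => ⌊(z i).im⌋) (t := S.image fun i => ⌊(z i).im⌋)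
    (fun i hi => Finset.mem_image_of_mem _ hi)]
  calc ∑ n ∈ S.image (fun i => ⌊(z i).im⌋), ∑ i ∈ S with ⌊(z i).im⌋ = n, m i / (1 + |(z i).im|) ^ s
      ≤ ∑ n ∈ S.image (fun i => ⌊(z i).im⌋), C * C1 * 2 ^ s * (1 / (1 + |(n : ℝ)|) ^ (s - e)) := by
        apply Finset.sum_le_sum
        intro n _
        have h1 : ∀ i ∈ S.filter (fun i => ⌊(z i).im⌋ = n), m i / (1 + |(z i).im|) ^ s ≤
            m i * (2 ^ s / (1 + |(n : ℝ)|) ^ s) := by
          intro i hi
          rw [Finset.mem_filter] at hi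
          have h2 := Int.floor_le (z i).im
          have h3 := Int.lt_floor_add_one (z i).im
          rw [hi.2] at h2 h3
          have h4 : 1 + |(n : ℝ)| ≤ 2 * (1 + |(z i).im|) := by
            have h5 : |(n : ℝ)| ≤ |(z i).im| + 1 := by
              rcases abs_cases (n : ℝ) with ⟨h6, _⟩ | ⟨h6, _⟩ <;> rcases abs_cases (z i).im with ⟨h7, _⟩ | ⟨h7, _⟩ <;>
                linarith
            have := abs_nonneg (z i).im
            linarith
          rw [div_eq_mul_inv]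
          apply mul_le_mul_of_nonneg_left _ (hm i)
          rw [← one_div, div_le_div_iff₀ (by positivity) (by positivity), one_mul, ← Real.mul_rpow (by norm_num)
            (by positivity)]
          exact Real.rpow_le_rpow (by positivity) h4 (by linarith)
        calc ∑ i ∈ S with ⌊(z i).im⌋ = n, m i / (1 + |(z i).im|) ^ s
            ≤ ∑ i ∈ S with ⌊(z i).im⌋ = n, m i * (2 ^ s / (1 + |(n : ℝ)|) ^ s) := Finset.sum_le_sum h1
          _ = (∑ i ∈ S with ⌊(z i).im⌋ = n, m i) * (2 ^ s / (1 + |(n : ℝ)|) ^ s) := by rw [Finset.sum_mul]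
          _ ≤ (C * Real.log (2 + |(n : ℝ)|)) * (2 ^ s / (1 + |(n : ℝ)|) ^ s) := by
              gcongr
              exact hloc n _ fun i hi => (Finset.mem_filter.mp hi).2
          _ ≤ (C * (C1 * (1 + |(n : ℝ)|) ^ e)) * (2 ^ s / (1 + |(n : ℝ)|) ^ s) := by
              have h2 := hlog (1 + |(n : ℝ)|) (by linarith [abs_nonneg (n : ℝ)])
              rw [show (1 : ℝ) + (1 + |(n : ℝ)|) = 2 + |(n : ℝ)| by ring] at h2
              gcongr
          _ = C * C1 * 2 ^ s * (1 / (1 + |(n : ℝ)|) ^ (s - e)) := by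
              rw [Real.rpow_sub (by positivity)]
              have h5 : (1 + |(n : ℝ)|) ^ s ≠ 0 := by positivity
              have h6 : (1 + |(n : ℝ)|) ^ e ≠ 0 := by positivity
              field_simp
    _ = C * C1 * 2 ^ s * ∑ n ∈ S.image (fun i => ⌊(z i).im⌋), (1 / (1 + |(n : ℝ)|) ^ (s - e)) := by
        rw [Finset.mul_sum]
    _ ≤ _ := by
        gcongr
        exact hsum.sum_le_tsum _ fun n _ => by positivity

/-- total count from summability -/
lemma total_of_sum (hm : ∀ i, 0 ≤ m i) {e : ℝ} (he : 0 < e)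
    (hS : Summable fun i => m i / (1 + |(z i).im|) ^ (1 + e)) :
    ∃ C : ℝ, 0 < C ∧ ∀ T : ℝ, 1 ≤ T → ∀ S : Finset ι, (∀ i ∈ S, |(z i).im| ≤ T) →
      ∑ i ∈ S, m i ≤ C * T ^ (1 + e) := by
  obtain ⟨B, hB⟩ : ∃ B : ℝ, B = ∑' i, m i / (1 + |(z i).im|) ^ (1 + e) := ⟨_, rfl⟩
  have hB0 : 0 ≤ B := by
    rw [hB]
    exact tsum_nonneg fun i => div_nonneg (hm i) (by positivity)
  refine ⟨(B + 1) * 2 ^ (1 + e), by positivity, fun T hT S hST => ?_⟩
  calc ∑ i ∈ S, m i ≤ ∑ i ∈ S, (1 + T) ^ (1 + e) * (m i / (1 + |(z i).im|) ^ (1 + e)) := by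
        apply Finset.sum_le_sum
        intro i hi
        have h1 := hST i hi
        rw [mul_div_assoc', le_div_iff₀ (by positivity), mul_comm]
        gcongr
        exact hm i
    _ = (1 + T) ^ (1 + e) * ∑ i ∈ S, (m i / (1 + |(z i).im|) ^ (1 + e)) := by rw [Finset.mul_sum]
    _ ≤ (1 + T) ^ (1 + e) * (B + 1) := by
        gcongr
        have := hS.sum_le_tsum S fun i _ => div_nonneg (hm i) (by positivity)
        rw [← hB] at this
        linarith
    _ ≤ (2 * T) ^ (1 + e) * (B + 1) := by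
        gcongr
        linarith
    _ = _ := by
        rw [Real.mul_rpow (by norm_num) (by linarith)]
        ring

/-- the density condition from density estimates -/
lemma adm_of_dens (hm : ∀ i, 0 ≤ m i) {h0 κ M : ℝ} (hh0 : 0 < h0) (hκ : 0 < κ)
    (hre : ∀ i, |(z i).re| ≤ h0) {a : ℝ → ℝ} (ha : ∀ h, 0 ≤ h → h < h0 → 0 ≤ a h ∧ a h ≤ 1)
    (hM2 : M < 2) (hM : ∀ h, 0 ≤ h → h < h0 → 2 * κ * h + a h ≤ M)
    (hd : ∀ h, 0 ≤ h → h < h0 → ∀ e : ℝ, 0 < e → ∃ C : ℝ, 0 < C ∧ ∀ T : ℝ, 1 ≤ T → ∀ S : Finset ι,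
      (∀ i ∈ S, h ≤ |(z i).re| ∧ |(z i).im| ≤ T) → ∑ i ∈ S, m i ≤ C * T ^ (a h + e)) :
    Adm z m κ := by
  -- parameters
  obtain ⟨g, hg⟩ : ∃ g : ℝ, g = 2 - M := ⟨_, rfl⟩
  have hg0 : 0 < g := by linarith
  obtain ⟨η, hη⟩ : ∃ η : ℝ, η = min (g / 8) 1 := ⟨_, rfl⟩
  have hη0 : 0 < η := by rw [hη]; positivity
  have hη1 : η ≤ g / 8 := by rw [hη]; exact min_le_left _ _
  have hη2 : η ≤ 1 := by rw [hη]; exact min_le_right _ _
  obtain ⟨N, hN⟩ : ∃ N : ℕ, 8 * κ * h0 / g ≤ N := exists_nat_ge _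
  obtain ⟨N', hN'⟩ : ∃ N' : ℕ, N' = N + 1 := ⟨_, rfl⟩
  have hN0 : (0 : ℝ) < N' := by rw [hN']; positivity
  have hNN : 8 * κ * h0 ≤ N' * g := by
    rw [div_le_iff₀ hg0] at hN
    rw [hN']
    push_cast
    nlinarith
  choose! CC hCC hCC2 using fun (k : ℕ) (hk : k < N') => hd (k * h0 / N') (by positivity) (by
    rw [div_lt_iff₀ hN0]
    have : (k : ℝ) < N' := by exact_mod_cast hk
    nlinarith) (g / 8) (by positivity)
  refine ⟨η, hη0, ∑ k ∈ Finset.range N', CC k, fun A hA S hS => ?_⟩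
  classical
  obtain ⟨f, hf⟩ : ∃ f : ι → ℕ, f = fun i => min ⌊|(z i).re| * N' / h0⌋₊ N := ⟨_, rfl⟩
  have hmaps : ∀ i ∈ S, f i ∈ Finset.range N' := by
    intro i _
    rw [Finset.mem_range, hf, hN']
    simp only
    omega
  rw [← Finset.sum_fiberwise_of_maps_to hmaps, Finset.sum_mul]
  apply Finset.sum_le_sum
  intro k hk
  rw [Finset.mem_range] at hk
  have hslice : ∀ i ∈ S.filter (fun i => f i = k), k * h0 / N' ≤ |(z i).re| ∧ |(z i).re| ≤ (k + 1) * h0 / N' := by
    intro i hi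
    obtain ⟨hi1, hi2⟩ := Finset.mem_filter.mp hi
    rw [hf] at hi2
    simp only at hi2
    have hnn : 0 ≤ |(z i).re| * N' / h0 := by positivity
    constructor
    · have h1 : k ≤ ⌊|(z i).re| * N' / h0⌋₊ := by omega
      have h2 : (k : ℝ) ≤ |(z i).re| * N' / h0 := (by exact_mod_cast h1 : (k : ℝ) ≤ ⌊|(z i).re| * N' / h0⌋₊).trans
        (Nat.floor_le hnn)
      rw [le_div_iff₀ hh0] at h2
      rw [div_le_iff₀ hN0]
      exact h2
    · rcases le_or_gt ⌊|(z i).re| * N' / h0⌋₊ N with h1 | h1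
      · rw [min_eq_left h1] at hi2
        have h2 := Nat.lt_floor_add_one (|(z i).re| * N' / h0)
        rw [hi2, div_lt_iff₀ hh0] at h2
        rw [le_div_iff₀ hN0]
        exact h2.le
      · rw [min_eq_right h1.le] at hi2
        rw [← hi2]
        have h3 : ((N : ℝ) + 1) * h0 / N' = h0 := by
          rw [hN']
          push_cast
          field_simp
        rw [h3]
        exact hre i
  have hA0 : 0 < A := by linarith
  have hT1 : 1 ≤ A ^ (1 + η) := Real.one_le_rpow hA (by linarith)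
  have hcount := hCC2 k hk (A ^ (1 + η)) hT1 (S.filter fun i => f i = k) (fun i hi =>
    ⟨(hslice i hi).1, hS i (Finset.mem_filter.mp hi).1⟩)
  have hk0 : (0 : ℝ) ≤ k * h0 / N' := by positivity
  have hkh : (k : ℝ) * h0 / N' < h0 := by
    rw [div_lt_iff₀ hN0]
    have : (k : ℝ) < N' := by exact_mod_cast hk
    nlinarith
  obtain ⟨hk1, hk2⟩ := ha _ hk0 hkh
  have hkM := hM _ hk0 hkh
  calc ∑ i ∈ S with f i = k, m i * A ^ (2 * κ * |(z i).re|)
      ≤ ∑ i ∈ S with f i = k, m i * A ^ (2 * κ * ((k + 1) * h0 / N')) := by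
        apply Finset.sum_le_sum
        intro i hi
        apply mul_le_mul_of_nonneg_left _ (hm i)
        apply Real.rpow_le_rpow_of_exponent_le hA
        have := (hslice i hi).2
        gcongr
    _ = (∑ i ∈ S with f i = k, m i) * A ^ (2 * κ * ((k + 1) * h0 / N')) := by rw [Finset.sum_mul]
    _ ≤ (CC k * (A ^ (1 + η)) ^ (a (k * h0 / N') + g / 8)) * A ^ (2 * κ * ((k + 1) * h0 / N')) := by
        gcongr
    _ = CC k * A ^ ((1 + η) * (a (k * h0 / N') + g / 8) + 2 * κ * ((k + 1) * h0 / N')) := by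
        rw [← Real.rpow_mul hA0.le, Real.rpow_add hA0]
        ring
    _ ≤ CC k * A ^ (2 - η) := by
        have h1 := (hCC k hk).le
        apply mul_le_mul_of_nonneg_left _ h1
        apply Real.rpow_le_rpow_of_exponent_le hA
        have h2 : 2 * κ * ((k + 1) * h0 / N') = 2 * κ * (k * h0 / N') + 2 * κ * h0 / N' := by ring
        have h3 : 2 * κ * h0 / N' ≤ g / 4 := by
          rw [div_le_iff₀ hN0]
          linarith
        rw [h2]
        have h4 : (1 + η) * (a (k * h0 / N') + g / 8) ≤ a (k * h0 / N') + g / 8 + η + η * (g / 8) := by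
          nlinarith
        have h5 : η * (g / 8) ≤ g / 8 := by nlinarith
        linarith

end Pool.Agent.V11271.LI
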