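import Pool.Agent.V11271.LI.Neg4

set_option autoImplicit false

/-!
# Positivity in a range excludes zeros far from the critical line
-/

namespace Pool.Agent.V11271.LI

open Complex Filter Topology
open scoped ComplexConjugate

variable {ι : Type*} {z : ι → ℂ} {m : ι → ℝ}

lemma tendsto_norm_add_div (y : ℂ) : Tendsto (fun A : ℝ => ‖y + A‖ / A) atTop (𝓝 1) := by
  have h1 := (tendsto_ratio y 0).norm
  rw [norm_one] at h1
  refine h1.congr' ?_
  filter_upwards [eventually_gt_atTop 0] with A hA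
  rw [norm_div, zero_add, Complex.norm_real, Real.norm_eq_abs, abs_of_pos hA]

lemma tendsto_norm_sub_div (y : ℂ) : Tendsto (fun A : ℝ => ‖y - A‖ / A) atTop (𝓝 1) := by
  refine (tendsto_norm_add_div (-y)).congr fun A => ?_
  rw [← norm_neg (y - A)]
  congr 2
  ring

/-- the modulus of the centre -/
noncomputable def rr (zc : ℂ) (A : ℝ) : ℝ := ‖(zc + A) / (zc - A)‖

lemma rr_tendsto (zc : ℂ) : Tendsto (rr zc) atTop (𝓝 1) := by
  have h1 := (tendsto_norm_add_div zc).div (tendsto_norm_sub_div zc) one_ne_zero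
  rw [div_one] at h1
  refine h1.congr' ?_
  filter_upwards [eventually_gt_atTop 0] with A hA
  unfold rr
  simp only [Pi.div_apply]
  rw [norm_div, div_div_div_cancel_right₀ hA.ne']

lemma rr_one (zc : ℂ) : Tendsto (fun A : ℝ => A * (1 - rr zc A)) atTop (𝓝 (-(2 * zc.re))) := by
  have h1 : Tendsto (fun A : ℝ => -(4 * zc.re) * (1 / (‖zc - A‖ / A)) ^ 2 / (1 + rr zc A)) atTop
      (𝓝 (-(4 * zc.re) * (1 / 1) ^ 2 / (1 + 1))) := by
    apply Tendsto.div
    · exact ((tendsto_const_nhds.div (tendsto_norm_sub_div zc) one_ne_zero).pow 2).const_mul _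
    · exact (rr_tendsto zc).const_add 1
    · norm_num
  have e : -(4 * zc.re) * (1 / 1) ^ 2 / (1 + 1) = -(2 * zc.re) := by ring
  rw [e] at h1
  refine h1.congr' ?_
  filter_upwards [eventually_gt_atTop 0, eventually_gt_atTop zc.re] with A hA hA2
  have hne : zc - A ≠ 0 := by
    intro h
    have := congrArg Complex.re h
    simp at this
    linarith
  have hn : 0 < ‖zc - A‖ := norm_pos_iff.mpr hne
  have hr : 0 ≤ rr zc A := norm_nonneg _
  have e1 : ‖zc - A‖ ^ 2 - ‖zc + A‖ ^ 2 = -(4 * zc.re) * A := by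
    rw [← Complex.normSq_eq_norm_sq, ← Complex.normSq_eq_norm_sq, Complex.normSq_apply, Complex.normSq_apply]
    simp
    ring
  have e2 : rr zc A * ‖zc - A‖ = ‖zc + A‖ := by
    unfold rr
    rw [norm_div]
    field_simp
  have e3 : (1 - rr zc A) * (1 + rr zc A) * ‖zc - A‖ ^ 2 = -(4 * zc.re) * A := by
    rw [← e1, ← e2]
    ring
  field_simp
  linarith

lemma exp_one (τ : ℝ) : Tendsto (fun A : ℝ => A * (Real.exp (τ / A) - 1)) atTop (𝓝 τ) := by
  rcases eq_or_ne τ 0 with h | h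
  · rw [h]
    simp
  have hd : HasDerivAt Real.exp 1 0 := by simpa using Real.hasDerivAt_exp 0
  have h1 := hd.tendsto_slope_zero
  have h2 : Tendsto (fun A : ℝ => τ / A) atTop (𝓝[≠] 0) := by
    rw [tendsto_nhdsWithin_iff]
    refine ⟨tendsto_const_nhds.div_atTop tendsto_id, ?_⟩
    filter_upwards [eventually_gt_atTop 0] with A hA
    simp [h, hA.ne']
  have h3 := (h1.comp h2).const_mul τ
  rw [mul_one] at h3
  refine h3.congr' ?_
  filter_upwards [eventually_gt_atTop 0] with A hA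
  simp only [Function.comp, zero_add, Real.exp_zero, smul_eq_mul]
  field_simp

lemma MA_one : Tendsto (fun A : ℝ => A * (MA A - 1)) atTop (𝓝 1) := by
  have h1 : Tendsto (fun A : ℝ => 1 / (1 - 1 / 2 * A⁻¹)) atTop (𝓝 (1 / (1 - 1 / 2 * 0))) := by
    apply Tendsto.div tendsto_const_nhds
    · exact (tendsto_inv_atTop_zero.const_mul _).const_sub 1
    · norm_num
  have e : (1 : ℝ) / (1 - 1 / 2 * 0) = 1 := by norm_num
  rw [e] at h1
  refine h1.congr' ?_
  filter_upwards [eventually_ge_atTop 1] with A hA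
  unfold MA
  have h2 : A - 1 / 2 ≠ 0 := by linarith
  have h3 : (1 - 1 / 2 * A⁻¹) = (A - 1 / 2) / A := by field_simp
  rw [h3]
  have h4 : (A + 1 / 2) / (A - 1 / 2) - 1 = 1 / (A - 1 / 2) := by
    rw [div_sub_one h2]
    congr 1
    ring
  rw [h4, one_div, inv_div, mul_one_div]

lemma MA_tendsto : Tendsto MA atTop (𝓝 1) := by
  have h1 := (MA_one.mul tendsto_inv_atTop_zero).add_const 1
  have e : (1 : ℝ) * 0 + 1 = 1 := by norm_num
  rw [e] at h1
  refine h1.congr' ?_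
  filter_upwards [eventually_gt_atTop 0] with A hA
  field_simp
  ring

lemma all_one (zc : ℂ) (τ : ℝ) :
    Tendsto (fun A : ℝ => A * (1 - rr zc A * Real.exp (τ / A) * MA A)) atTop (𝓝 (-(2 * zc.re) - 1 - τ)) := by
  have h1 := rr_one zc
  have h2 := (rr_tendsto zc).mul (exp_one τ)
  have h3 : Tendsto (fun A : ℝ => Real.exp (τ / A)) atTop (𝓝 1) := by
    have h4 := ((exp_one τ).mul tendsto_inv_atTop_zero).add_const 1
    have e : τ * 0 + 1 = 1 := by norm_num
    rw [e] at h4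
    refine h4.congr' ?_
    filter_upwards [eventually_gt_atTop 0] with A hA
    field_simp
    ring
  have h4 := ((rr_tendsto zc).mul h3).mul MA_one
  have h5 := (h1.sub h2).sub h4
  have e : -(2 * zc.re) - 1 * τ - 1 * 1 * 1 = -(2 * zc.re) - 1 - τ := by ring
  rw [e] at h5
  refine h5.congr fun A => ?_
  ring

/-- positivity in a range excludes zeros far from the critical line -/
theorem Cfg.neg (C : Cfg z m) {κ : ℝ}
    (H : ∃ A0 : ℝ, ∀ A : ℝ, A0 ≤ A → ∀ n : ℕ, 1 ≤ n → n ≤ κ * A * Real.log A → 0 ≤ lam z m A n)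
    (i0 : ι) : κ * |(z i0).re| ≤ 1 := by
  by_contra hcon
  push Not at hcon
  obtain ⟨h1, hh1⟩ : ∃ h1 : ℝ, h1 = |(z i0).re| := ⟨_, rfl⟩
  rw [← hh1] at hcon
  have hh10 : 0 < h1 := by
    rcases eq_or_lt_of_le (show 0 ≤ h1 by rw [hh1]; exact abs_nonneg _) with h | h
    · rw [← h] at hcon; linarith
    · exact h
  have hh11 : h1 ≤ 1 / 2 := by rw [hh1]; exact C.re_le i0
  -- parameters
  obtain ⟨κ', hκ1, hκ2⟩ : ∃ κ' : ℝ, 1 / h1 < κ' ∧ κ' < κ := by
    apply exists_between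
    rw [div_lt_iff₀ hh10]
    linarith
  have hκ'1 : 1 < κ' * h1 := by
    rw [div_lt_iff₀ hh10] at hκ1
    linarith
  have hκ'0 : 0 < κ' := lt_trans (by positivity) hκ1
  obtain ⟨s, hs⟩ : ∃ s : ℝ, s = κ' * h1 - 1 := ⟨_, rfl⟩
  have hs0 : 0 < s := by linarith
  obtain ⟨τ, hτ⟩ : ∃ τ : ℝ, τ = (κ' + 8) / (κ - κ') := ⟨_, rfl⟩
  have hκκ : 0 < κ - κ' := by linarith
  have hτ0 : 0 < τ := by rw [hτ]; positivity
  have hτ1 : τ * (κ - κ') = κ' + 8 := by rw [hτ]; field_simp
  obtain ⟨B, hB⟩ : ∃ B : ℝ, B = 2 + τ + (1 + τ) * (κ' * (1 + τ) + 1) + 2 / κ' := ⟨_, rfl⟩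
  have hB1 : 1 ≤ B := by
    rw [hB]
    have : 0 ≤ (1 + τ) * (κ' * (1 + τ) + 1) := by positivity
    have : 0 ≤ 2 / κ' := by positivity
    linarith
  obtain ⟨zc, p, hzB, hpz, hex, hn1, hn2, hdist⟩ := C.choice i0 hB1
  rw [← hh1] at hdist
  obtain ⟨b, hb⟩ : ∃ b : ℝ, b = -zc.re := ⟨_, rfl⟩
  rw [← hb] at hdist
  have hbB : B ≤ b := by rw [hb]; linarith
  obtain ⟨d, hd⟩ : ∃ d : ℝ, d = ‖p - zc‖ := ⟨_, rfl⟩
  rw [← hd] at hdist
  have hpzne : p - zc ≠ 0 := sub_ne_zero.mpr hpz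
  have hd0 : 0 < d := by rw [hd]; exact norm_pos_iff.mpr hpzne
  have hb0 : 0 < b := by linarith
  have hzc12 : zc.re < -1 / 2 := by linarith
  obtain ⟨c, hc⟩ : ∃ c : ℝ, c = 2 * b * κ' := ⟨_, rfl⟩
  have hc0 : 0 < c := by rw [hc]; positivity
  have hc2 : 2 < c * Real.log 2 := by
    have h2 : (0.6931471803 : ℝ) < Real.log 2 := Real.log_two_gt_d9
    have h3 : 4 ≤ c := by
      have h4 : 2 / κ' ≤ b := by
        have : 0 ≤ (1 + τ) * (κ' * (1 + τ) + 1) := by positivity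
        linarith
      rw [div_le_iff₀ hκ'0] at h4
      rw [hc]
      linarith
    nlinarith
  obtain ⟨μ, hμ⟩ : ∃ μ : ℝ, μ = 2 * b - 1 - τ := ⟨_, rfl⟩
  have hμ0 : 0 < μ := by
    have : 0 ≤ (1 + τ) * (κ' * (1 + τ) + 1) := by positivity
    have : 0 ≤ 2 / κ' := by positivity
    linarith
  have hlogμ : c * Real.log (2 * d / μ) < κ' * (1 + τ) + 2 := by
    have h2 : Real.log (2 * d / μ) ≤ 2 * b / μ - 1 := by
      have h3 : 2 * d / μ ≤ 2 * b / μ := by
        gcongr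
        linarith
      exact (Real.log_le_sub_one_of_pos (by positivity)).trans (by linarith)
    have h3 : 2 * b / μ - 1 = (1 + τ) / μ := by
      rw [hμ]
      have : 2 * b - 1 - τ ≠ 0 := by linarith
      field_simp
      ring
    rw [h3] at h2
    have h4 : c * ((1 + τ) / μ) ≤ κ' * (1 + τ) + 1 := by
      rw [mul_div_assoc', div_le_iff₀ hμ0, hc, hμ]
      have h5 : (1 + τ) * (κ' * (1 + τ) + 1) ≤ b := by
        have : 0 ≤ 2 / κ' := by positivity
        linarith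
      have h6 : (κ' * (1 + τ) + 1) * (2 * b - 1 - τ) - 2 * b * κ' * (1 + τ) =
          2 * b - (1 + τ) * (κ' * (1 + τ) + 1) := by ring
      linarith
    have h5 : c * Real.log (2 * d / μ) ≤ c * ((1 + τ) / μ) := by gcongr
    linarith
  have hlogd : c * Real.log (d / b) < -(2 + s) := by
    have h2 := Real.log_le_sub_one_of_pos (show 0 < d / b by positivity)
    have h3 : d / b - 1 ≤ -(h1 / b) := by
      have : d / b ≤ (b - h1) / b := by gcongr
      have e : (b - h1) / b = 1 - h1 / b := by field_simp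
      linarith
    calc c * Real.log (d / b) ≤ c * (-(h1 / b)) := by
          gcongr
          linarith
      _ = -(2 * (κ' * h1)) := by
          rw [hc]
          field_simp
      _ < -(2 + s) := by linarith
  obtain ⟨e, he⟩ : ∃ e : ℝ, e = min (s / 8) 1 := ⟨_, rfl⟩
  have he0 : 0 < e := by rw [he]; positivity
  have he1 : e ≤ 1 := by rw [he]; exact min_le_right _ _
  have hes : e ≤ s / 8 := by rw [he]; exact min_le_left _ _
  obtain ⟨A0, hA0⟩ := H
  -- the auxiliary functions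
  obtain ⟨G, hG⟩ : ∃ G : ℝ → ℝ, G = fun A : ℝ => ‖(p + A) / (p - zc)‖ * (‖zc - A‖ / (2 * A)) := ⟨_, rfl⟩
  have hGlim : Tendsto (fun A : ℝ => G A / A) atTop (𝓝 (1 / (2 * d))) := by
    have h2 := ((tendsto_norm_add_div p).mul (tendsto_norm_sub_div zc)).mul_const (1 / (2 * d))
    rw [one_mul, one_mul] at h2
    refine h2.congr' ?_
    filter_upwards [eventually_gt_atTop 0] with A hA
    rw [hG]
    simp only
    rw [norm_div, ← hd]
    field_simp
  have hf1 : Tendsto (fun A : ℝ => ((1 - rr zc A) * G A)⁻¹) atTop (𝓝 (d / b)) := by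
    have h2 := ((rr_one zc).mul hGlim).inv₀ (by rw [← mul_neg, ← hb]; positivity)
    have e2 : (-(2 * zc.re) * (1 / (2 * d)))⁻¹ = d / b := by
      rw [← mul_neg, ← hb]
      field_simp
    rw [e2] at h2
    refine h2.congr' ?_
    filter_upwards [eventually_gt_atTop 0] with A hA
    congr 1
    field_simp
  have hf2 : Tendsto (fun A : ℝ => ((1 - rr zc A * Real.exp (τ / A) * MA A) * G A)⁻¹) atTop
      (𝓝 (2 * d / μ)) := by
    have e3 : -(2 * zc.re) - 1 - τ = μ := by rw [hμ, hb]; ring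
    have h2 := ((all_one zc τ).mul hGlim).inv₀ (by rw [e3]; positivity)
    rw [e3] at h2
    have e2 : (μ * (1 / (2 * d)))⁻¹ = 2 * d / μ := by
      field_simp
    rw [e2] at h2
    refine h2.congr' ?_
    filter_upwards [eventually_gt_atTop 0] with A hA
    congr 1
    field_simp
  -- bounds for the sums
  obtain ⟨B2, hB2⟩ : ∃ B2 : ℝ, B2 = ∑' i, m i / (1 + |(z i).im|) ^ 2 := ⟨_, rfl⟩
  have hB20 : 0 ≤ B2 := by
    rw [hB2]
    exact tsum_nonneg fun i => div_nonneg (C.m_nonneg i) (by positivity)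
  obtain ⟨Be, hBe⟩ : ∃ Be : ℝ, Be = ∑' i, m i / (1 + |(z i).im|) ^ (1 + e) := ⟨_, rfl⟩
  have hBe0 : 0 ≤ Be := by
    rw [hBe]
    exact tsum_nonneg fun i => div_nonneg (C.m_nonneg i) (by positivity)
  -- eventual inequalities
  have ev1 := pow_le_rpow hc0 hf1 (by positivity) hlogd
  have ev2 := pow_le_rpow hc0 hf2 (by positivity) hlogμ
  have ev3 := KK_le_rpow hc0 (show 0 < e / 2 by positivity)
  have ev3' := KK_le_rpow hc0 (show (0 : ℝ) < 1 / 4 by positivity)
  have ev4 : ∀ᶠ A : ℝ in atTop, 1 / 4 * ‖(p + A) / (p - zc)‖ ^ (KK c A + 1) ≤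
      ‖∑' i, (m i : ℂ) * Q zc A (KK c A + 1) (z i)‖ := by
    have h2 := (C.main_lim hpz hn1 hn2 hc0 hc2).norm
    have h3 := C.lim_norm hex
    filter_upwards [h2.eventually_const_le (show (1 / 4 : ℝ) < _ from lt_of_lt_of_le (by norm_num) h3),
      eventually_gt_atTop (-p.re)] with A h4 h5
    have hne : p + (A : ℂ) ≠ 0 := by
      intro h0
      have := congrArg Complex.re h0
      simp at this
      linarith
    rw [tsum_div_const, norm_div, norm_pow, le_div_iff₀ (pow_pos (norm_pos_iff.mpr (div_ne_zero hne hpzne)) _)] at h4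
    exact h4
  have ev5 : ∀ᶠ A : ℝ in atTop, b ≤ A * (1 - rr zc A) :=
    (rr_one zc).eventually_const_le (by rw [← mul_neg, ← hb]; linarith)
  have ev6 : ∀ᶠ A : ℝ in atTop, μ / 2 ≤ A * (1 - rr zc A * Real.exp (τ / A) * MA A) :=
    (all_one zc τ).eventually_const_le (by
      have e3 : -(2 * zc.re) - 1 - τ = μ := by rw [hμ, hb]; ring
      rw [e3]; linarith)
  have ev7 : ∀ᶠ A : ℝ in atTop, 24 * Be * (2 / b) ^ (1 + e) * A ^ (-(s / 2)) < 1 / 8 := by
    have h := (tendsto_rpow_neg_atTop (show 0 < s / 2 by positivity)).const_mul (24 * Be * (2 / b) ^ (1 + e))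
    rw [mul_zero] at h
    exact h.eventually_lt_const (by norm_num)
  have ev8 : ∀ᶠ A : ℝ in atTop, 2 * 56 * B2 * 2 * (2 / μ) ^ 2 * A ^ (-(1 : ℝ)) < 1 / 8 := by
    have h := (tendsto_rpow_neg_atTop (show (0 : ℝ) < 1 by positivity)).const_mul
      (2 * 56 * B2 * 2 * (2 / μ) ^ 2)
    rw [mul_zero] at h
    exact h.eventually_lt_const (by norm_num)
  obtain ⟨A, g1, g2, g3, g3', g4, g5, g6, g7, g8, g9, g10, g11⟩ :=
    (ev1.and (ev2.and (ev3.and (ev3'.and (ev4.and (ev5.and (ev6.and (ev7.and (ev8.and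
      ((eventually_ge_atTop A0).and ((eventually_ge_atTop 2).and
        (eventually_gt_atTop (-p.re))))))))))))).exists
  have hA1 : (1 : ℝ) ≤ A := by linarith
  have hApos : (0 : ℝ) < A := by linarith
  obtain ⟨K, hK⟩ : ∃ K : ℕ, K = KK c A := ⟨_, rfl⟩
  rw [← hK] at g1 g2 g3 g3' g4
  obtain ⟨r, hr⟩ : ∃ r : ℝ, r = rr zc A := ⟨_, rfl⟩
  rw [← hr] at g1 g2 g5 g6
  have h1r : 0 < 1 - r := by
    by_contra h
    have : A * (1 - r) ≤ 0 := mul_nonpos_of_nonneg_of_nonpos hApos.le (by linarith)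
    linarith
  obtain ⟨q, hq⟩ : ∃ q : ℝ, q = 1 - r * Real.exp (τ / A) * MA A := ⟨_, rfl⟩
  rw [← hq] at g2 g6
  have hq0 : 0 < q := by
    by_contra h
    have : A * q ≤ 0 := mul_nonpos_of_nonneg_of_nonpos hApos.le (by linarith)
    linarith
  have hcmp := C.compare hA1 hzc12 (x := (zc + A) / (zc - A)) rfl (N := κ * A * Real.log A)
    (ρ := Real.exp (τ / A)) (δ := A ^ (-(τ * κ))) (Real.one_le_exp (by positivity)) (by positivity)
    (by
      intro n hn
      rw [← Real.exp_nat_mul, Real.rpow_def_of_pos hApos, ← Real.exp_add]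
      apply Real.one_le_exp
      have : τ * κ * Real.log A ≤ n * (τ / A) := by
        rw [mul_div_assoc', le_div_iff₀ hApos]
        have h6 := mul_le_mul_of_nonneg_left hn.le hτ0.le
        have h7 : τ * κ * Real.log A * A = τ * (κ * A * Real.log A) := by ring
        rw [h7, mul_comm (n : ℝ) τ]
        exact h6
      linarith)
    (by
      have : ‖(zc + A) / (zc - A)‖ = r := by rw [hr]; rfl
      rw [this]
      linarith)
    (hA0 A g9) K he0 he1 rfl
  have hrn : ‖(zc + A) / (zc - A)‖ = r := by rw [hr]; rfl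
  rw [hrn, ← hB2, ← hBe, ← hq] at hcmp
  -- the left side
  have hne : p + (A : ℂ) ≠ 0 := by
    intro h0
    have := congrArg Complex.re h0
    simp at this
    linarith
  have hzA : zc - (A : ℂ) ≠ 0 := by
    intro h
    have := congrArg Complex.re h
    simp at this
    linarith
  have hzA0 : 0 < ‖zc - A‖ := norm_pos_iff.mpr hzA
  have hu0 : 0 < ‖(p + A) / (p - zc)‖ := norm_pos_iff.mpr (div_ne_zero hne hpzne)
  have hGpos : 0 < G A := by
    rw [hG]
    positivity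
  have h1x : ‖1 - (zc + A) / (zc - A)‖ = 2 * A / ‖zc - A‖ := by
    have e1 : 1 - (zc + A) / (zc - A) = (-2 * A : ℂ) / (zc - A) := by
      field_simp
      ring
    rw [e1, norm_div, norm_mul, Complex.norm_real, Real.norm_eq_abs, abs_of_pos hApos]
    simp
  have hleft : 1 / 4 * G A ^ (K + 1) ≤ ‖((1 - (zc + A) / (zc - A)) ^ (K + 1))⁻¹ *
      ∑' i, (m i : ℂ) * Q zc A (K + 1) (z i)‖ := by
    rw [norm_mul, norm_inv, norm_pow, h1x, hG]
    simp only
    rw [mul_pow, ← inv_pow, inv_div]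
    calc 1 / 4 * (‖(p + A) / (p - zc)‖ ^ (K + 1) * (‖zc - A‖ / (2 * A)) ^ (K + 1)) =
        (‖zc - A‖ / (2 * A)) ^ (K + 1) * (1 / 4 * ‖(p + A) / (p - zc)‖ ^ (K + 1)) := by ring
      _ ≤ _ := by gcongr
  have hmain := hleft.trans hcmp
  -- the first term
  have hrle : r ≤ 1 := by linarith
  have hr0 : 0 ≤ r := by rw [hr]; exact norm_nonneg _
  have hRle : A * (1 + r) / (1 - r) ≤ 2 / b * A ^ 2 := by
    rw [div_le_iff₀ h1r]
    have h2 : 2 / b * A ^ 2 * (1 - r) = 2 / b * A * (A * (1 - r)) := by ring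
    rw [h2]
    calc A * (1 + r) ≤ A * 2 := by gcongr; linarith
      _ = 2 / b * A * b := by field_simp
      _ ≤ 2 / b * A * (A * (1 - r)) := by gcongr
  have hRnn : 0 ≤ A * (1 + r) / (1 - r) := by positivity
  have hT1 : ((1 - r) ^ (K + 1))⁻¹ * (24 * (((K + 1 : ℕ) : ℝ) * (A * (1 + r) / (1 - r))) ^ (1 + e) * Be) ≤
      1 / 8 * G A ^ (K + 1) := by
    have h2 : (((K + 1 : ℕ) : ℝ) * (A * (1 + r) / (1 - r))) ^ (1 + e) ≤ (2 / b) ^ (1 + e) * A ^ (2 + s / 2) := by
      calc (((K + 1 : ℕ) : ℝ) * (A * (1 + r) / (1 - r))) ^ (1 + e) ≤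
          (A ^ (e / 2) * (2 / b * A ^ 2)) ^ (1 + e) := by
            apply Real.rpow_le_rpow (by positivity) _ (by linarith)
            gcongr
        _ = (2 / b) ^ (1 + e) * A ^ ((e / 2 + 2) * (1 + e)) := by
            rw [← Real.rpow_natCast A 2]
            rw [show A ^ (e / 2) * (2 / b * A ^ ((2 : ℕ) : ℝ)) = (2 / b) * A ^ (e / 2 + 2) by
              rw [Real.rpow_add hApos]; push_cast; ring]
            rw [Real.mul_rpow (by positivity) (by positivity), ← Real.rpow_mul hApos.le]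
        _ ≤ (2 / b) ^ (1 + e) * A ^ (2 + s / 2) := by
            apply mul_le_mul_of_nonneg_left _ (by positivity)
            apply Real.rpow_le_rpow_of_exponent_le hA1
            have h6 : e * e ≤ e * 1 := mul_le_mul_of_nonneg_left he1 he0.le
            have h7 : (e / 2 + 2) * (1 + e) = 2 + 5 / 2 * e + e * e / 2 := by ring
            rw [h7]
            linarith
    have h3 : ((1 - r) ^ (K + 1))⁻¹ = (((1 - r) * G A)⁻¹) ^ (K + 1) * G A ^ (K + 1) := by
      rw [inv_pow, mul_pow]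
      have := pow_pos hGpos (K + 1)
      have := pow_pos h1r (K + 1)
      field_simp
    rw [h3]
    calc (((1 - r) * G A)⁻¹) ^ (K + 1) * G A ^ (K + 1) *
        (24 * (((K + 1 : ℕ) : ℝ) * (A * (1 + r) / (1 - r))) ^ (1 + e) * Be)
        ≤ A ^ (-(2 + s)) * G A ^ (K + 1) * (24 * ((2 / b) ^ (1 + e) * A ^ (2 + s / 2)) * Be) := by
          gcongr
      _ = (24 * Be * (2 / b) ^ (1 + e) * (A ^ (-(2 + s)) * A ^ (2 + s / 2))) * G A ^ (K + 1) := by ring
      _ = (24 * Be * (2 / b) ^ (1 + e) * A ^ (-(s / 2))) * G A ^ (K + 1) := by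
          rw [← Real.rpow_add hApos]
          ring_nf
      _ ≤ 1 / 8 * G A ^ (K + 1) := by gcongr
  have hT2 : 2 * A ^ (-(τ * κ)) * (56 * A ^ 2 * B2 * ((((K : ℝ) + 1) * (K + 2)) * (q ^ (K + 3))⁻¹)) <
      1 / 8 * G A ^ (K + 1) := by
    have h2 : (q ^ (K + 3))⁻¹ = ((q * G A)⁻¹) ^ (K + 1) * G A ^ (K + 1) * (q⁻¹) ^ 2 := by
      rw [inv_pow, mul_pow, inv_pow, show K + 3 = (K + 1) + 2 by ring, pow_add]
      have := pow_pos hGpos (K + 1)
      have := pow_pos hq0 (K + 1)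
      have := pow_pos hq0 2
      field_simp
    have h3 : q⁻¹ ≤ 2 / μ * A := by
      rw [inv_le_iff_one_le_mul₀ hq0]
      calc (1 : ℝ) = 2 / μ * (μ / 2) := by field_simp
        _ ≤ 2 / μ * (A * q) := by gcongr
        _ = _ := by ring
    have h4 : ((K : ℝ) + 1) * (K + 2) ≤ 2 * A ^ (1 / 2 : ℝ) := by
      have h5 : ((K : ℝ) + 2) ≤ 2 * (K + 1) := by
        have : (0 : ℝ) ≤ K := Nat.cast_nonneg K
        linarith
      push_cast at g3'
      calc ((K : ℝ) + 1) * (K + 2) ≤ ((K : ℝ) + 1) * (2 * (K + 1)) := by gcongr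
        _ = 2 * (((K : ℝ) + 1) * (K + 1)) := by ring
        _ ≤ 2 * (A ^ (1 / 4 : ℝ) * A ^ (1 / 4 : ℝ)) := by gcongr
        _ = 2 * A ^ (1 / 2 : ℝ) := by
          rw [← Real.rpow_add hApos]
          norm_num
    rw [h2]
    calc 2 * A ^ (-(τ * κ)) * (56 * A ^ 2 * B2 * ((((K : ℝ) + 1) * (K + 2)) *
          (((q * G A)⁻¹) ^ (K + 1) * G A ^ (K + 1) * (q⁻¹) ^ 2)))
        ≤ 2 * A ^ (-(τ * κ)) * (56 * A ^ 2 * B2 * ((2 * A ^ (1 / 2 : ℝ)) *
          (A ^ (κ' * (1 + τ) + 2) * G A ^ (K + 1) * (2 / μ * A) ^ 2))) := by gcongr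
      _ = (2 * 56 * B2 * 2 * (2 / μ) ^ 2 *
          (A ^ (-(τ * κ)) * A ^ (1 / 2 : ℝ) * A ^ (κ' * (1 + τ) + 2) * A ^ 4)) * G A ^ (K + 1) := by ring
      _ ≤ (2 * 56 * B2 * 2 * (2 / μ) ^ 2 * A ^ (-(1 : ℝ))) * G A ^ (K + 1) := by
          have h6 : A ^ (-(τ * κ)) * A ^ (1 / 2 : ℝ) * A ^ (κ' * (1 + τ) + 2) * A ^ 4 ≤ A ^ (-(1 : ℝ)) := by
            rw [← Real.rpow_natCast A 4, ← Real.rpow_add hApos, ← Real.rpow_add hApos, ← Real.rpow_add hApos]
            apply Real.rpow_le_rpow_of_exponent_le hA1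
            push_cast
            have h8 : τ * κ - τ * κ' = κ' + 8 := by rw [← mul_sub]; exact hτ1
            have h9 : κ' * (1 + τ) = κ' + τ * κ' := by ring
            rw [h9]
            linarith
          gcongr
      _ < 1 / 8 * G A ^ (K + 1) := by
          have := pow_pos hGpos (K + 1)
          exact mul_lt_mul_of_pos_right g8 this
  linarith

end Pool.Agent.V11271.LI
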