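import Mathlib

set_option autoImplicit false

/-!
# Configurations of zeros and their Li coefficients
-/

namespace Pool.Agent.V11271.LI

open Complex Filter Topology
open scoped ComplexConjugate

/-- a configuration of points `z i` (zeros minus `1/2`) with multiplicities `m i` -/
structure Cfg {ι : Type*} (z : ι → ℂ) (m : ι → ℝ) : Prop where
  one_le : ∀ i, 1 ≤ m i
  re_le : ∀ i, |(z i).re| ≤ 1 / 2
  sum : ∀ s : ℝ, 1 < s → Summable fun i => m i / (1 + |(z i).im|) ^ s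
  symm : ∃ σ : ι ≃ ι, (∀ i, z (σ i) = -conj (z i)) ∧ ∀ i, m (σ i) = m i

/-- the transform -/
noncomputable def W (A : ℝ) (z : ℂ) : ℂ := (z - A) / (z + A)

/-- the Li coefficients with centre `A + 1/2` -/
noncomputable def lam {ι : Type*} (z : ι → ℂ) (m : ι → ℝ) (A : ℝ) (n : ℕ) : ℝ :=
  ∑' i, m i * (1 - W A (z i) ^ n).re

variable {ι : Type*} {z : ι → ℂ} {m : ι → ℝ}

lemma Cfg.m_nonneg (C : Cfg z m) (i : ι) : 0 ≤ m i := by linarith [C.one_le i]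

/-- Taylor's formula for a power -/
lemma pow_taylor (v : ℂ) (M : ℝ) (hM1 : 1 ≤ M) (hM : ‖1 - v‖ ≤ M) (n : ℕ) :
    ‖(1 - v) ^ n - 1 + n * v‖ ≤ n ^ 2 * ‖v‖ ^ 2 * M ^ n := by
  induction n with
  | zero => simp
  | succ n ih =>
    have hM0 : 0 ≤ M := by linarith
    -- auxiliary: ‖(1-v)^n - 1‖ ≤ n ‖v‖ M^n
    have haux : ∀ k : ℕ, ‖(1 - v) ^ k - 1‖ ≤ k * ‖v‖ * M ^ k := by
      intro k
      induction k with
      | zero => simp
      | succ k ihk =>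
        have e : (1 - v) ^ (k + 1) - 1 = (1 - v) * ((1 - v) ^ k - 1) - v := by ring
        rw [e]
        calc ‖(1 - v) * ((1 - v) ^ k - 1) - v‖ ≤ ‖1 - v‖ * ‖(1 - v) ^ k - 1‖ + ‖v‖ := by
              refine (norm_sub_le _ _).trans ?_
              rw [norm_mul]
          _ ≤ M * (k * ‖v‖ * M ^ k) + ‖v‖ * M ^ (k + 1) := by
              have h1 : (1 : ℝ) ≤ M ^ (k + 1) := one_le_pow₀ hM1
              have h2 : ‖v‖ ≤ ‖v‖ * M ^ (k + 1) := le_mul_of_one_le_right (norm_nonneg _) h1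
              gcongr
          _ = ((k + 1 : ℕ) : ℝ) * ‖v‖ * M ^ (k + 1) := by push_cast; ring
    have e : (1 - v) ^ (n + 1) - 1 + ((n + 1 : ℕ) : ℂ) * v =
        ((1 - v) ^ n - 1 + n * v) - v * ((1 - v) ^ n - 1) := by push_cast; ring
    rw [e]
    calc ‖((1 - v) ^ n - 1 + n * v) - v * ((1 - v) ^ n - 1)‖
        ≤ ‖(1 - v) ^ n - 1 + n * v‖ + ‖v‖ * ‖(1 - v) ^ n - 1‖ := by
          refine (norm_sub_le _ _).trans ?_
          rw [norm_mul]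
      _ ≤ n ^ 2 * ‖v‖ ^ 2 * M ^ n + ‖v‖ * (n * ‖v‖ * M ^ n) := by
          gcongr
          exact haux n
      _ = (n ^ 2 + n) * ‖v‖ ^ 2 * M ^ n := by ring
      _ ≤ ((n + 1 : ℕ) : ℝ) ^ 2 * ‖v‖ ^ 2 * M ^ (n + 1) := by
          have h1 : M ^ n ≤ M ^ (n + 1) := pow_le_pow_right₀ hM1 (by omega)
          have h2 : ((n : ℝ) ^ 2 + n) ≤ ((n + 1 : ℕ) : ℝ) ^ 2 := by
            push_cast
            have : (0 : ℝ) ≤ n := Nat.cast_nonneg n
            nlinarith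
          gcongr

/-- the bound for `W` -/
noncomputable def MA (A : ℝ) : ℝ := (A + 1 / 2) / (A - 1 / 2)

lemma one_le_MA {A : ℝ} (hA : 1 ≤ A) : 1 ≤ MA A := by
  unfold MA
  rw [le_div_iff₀ (by linarith)]
  linarith

lemma add_ne {A : ℝ} (hA : 1 ≤ A) {z : ℂ} (hz : |z.re| ≤ 1 / 2) : z + A ≠ 0 := by
  intro h
  have := congrArg Complex.re h
  rw [abs_le] at hz
  simp at this
  linarith [hz.1]

lemma sub_ne {A : ℝ} (hA : 1 ≤ A) {z : ℂ} (hz : |z.re| ≤ 1 / 2) : z - A ≠ 0 := by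
  intro h
  have := congrArg Complex.re h
  rw [abs_le] at hz
  simp at this
  linarith [hz.2]

lemma norm_W_le {A : ℝ} (hA : 1 ≤ A) {z : ℂ} (hz : |z.re| ≤ 1 / 2) : ‖W A z‖ ≤ MA A := by
  unfold W MA
  rw [norm_div]
  have h0 : 0 < ‖z + A‖ := norm_pos_iff.mpr (add_ne hA hz)
  have h1 : 0 < A - 1 / 2 := by linarith
  rw [div_le_div_iff₀ h0 h1]
  have h2 : 0 ≤ ‖z - A‖ * (A - 1 / 2) := by positivity
  have h3 : 0 ≤ (A + 1 / 2) * ‖z + A‖ := by positivity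
  rw [← abs_of_nonneg h2, ← abs_of_nonneg h3]
  apply sq_le_sq.mp
  rw [mul_pow, mul_pow, ← Complex.normSq_eq_norm_sq, ← Complex.normSq_eq_norm_sq,
    Complex.normSq_apply, Complex.normSq_apply]
  simp only [sub_re, sub_im, add_re, add_im, ofReal_re, ofReal_im, sub_zero, add_zero]
  rw [abs_le] at hz
  obtain ⟨hz1, hz2⟩ := hz
  have e1 : ((A + 1 / 2) * (A + z.re)) ^ 2 - ((A - 1 / 2) * (A - z.re)) ^ 2 =
      (2 * A ^ 2 + z.re) * (A * (1 + 2 * z.re)) := by ring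
  have e2 : (A + 1 / 2) ^ 2 * z.im ^ 2 - (A - 1 / 2) ^ 2 * z.im ^ 2 = 2 * A * z.im ^ 2 := by ring
  have e3 : 0 ≤ (2 * A ^ 2 + z.re) * (A * (1 + 2 * z.re)) := by
    apply mul_nonneg
    · nlinarith
    · apply mul_nonneg <;> linarith
  have e4 : 0 ≤ 2 * A * z.im ^ 2 := by positivity
  nlinarith

lemma W_eq {A : ℝ} (hA : 1 ≤ A) {z : ℂ} (hz : |z.re| ≤ 1 / 2) : W A z = 1 - 2 * A / (z + A) := by
  unfold W
  have := add_ne hA hz
  field_simp
  ring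

lemma normSq_low {A : ℝ} (hA : 1 ≤ A) {z : ℂ} (hz : |z.re| ≤ 1 / 2) :
    (1 + |z.im|) ^ 2 / 8 ≤ ‖z + A‖ ^ 2 := by
  rw [← Complex.normSq_eq_norm_sq, Complex.normSq_apply]
  simp only [add_re, add_im, ofReal_re, ofReal_im, add_zero]
  rw [abs_le] at hz
  have h1 := sq_abs z.im
  have h2 : 0 ≤ |z.im| := abs_nonneg _
  nlinarith [sq_nonneg (|z.im| - 1)]

/-- bound for the summands -/
lemma re_one_sub_pow {A : ℝ} (hA : 1 ≤ A) {z : ℂ} (hz : |z.re| ≤ 1 / 2) (n : ℕ) :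
    |(1 - W A z ^ n).re| ≤ 56 * (n ^ 2 * A ^ 2 * MA A ^ n) / (1 + |z.im|) ^ 2 := by
  have hne := add_ne hA hz
  have hz' := hz
  rw [abs_le] at hz'
  obtain ⟨v, hv⟩ : ∃ v : ℂ, v = 2 * A / (z + A) := ⟨_, rfl⟩
  have hw : W A z = 1 - v := by rw [hv]; exact W_eq hA hz
  have hM := norm_W_le hA hz
  have hM1 := one_le_MA hA
  rw [hw] at hM
  have hT := pow_taylor v (MA A) hM1 hM n
  rw [hw]
  have hn0 : (0 : ℝ) ≤ n := Nat.cast_nonneg n
  have hg : 0 < (1 + |z.im|) ^ 2 := by positivity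
  have hlow := normSq_low hA hz
  have hpos : 0 < ‖z + A‖ ^ 2 := lt_of_lt_of_le (by positivity) hlow
  -- norm of v
  have hv2 : ‖v‖ ^ 2 ≤ 32 * A ^ 2 / (1 + |z.im|) ^ 2 := by
    rw [hv, norm_div, div_pow, norm_mul, Complex.norm_real, Real.norm_eq_abs, abs_of_nonneg (by linarith)]
    simp only [Complex.norm_ofNat]
    rw [div_le_div_iff₀ hpos hg]
    nlinarith [sq_nonneg A]
  have hvre : |v.re| ≤ 24 * A ^ 2 / (1 + |z.im|) ^ 2 := by
    have e : v.re = 2 * A * (z.re + A) / ‖z + A‖ ^ 2 := by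
      rw [hv, Complex.div_re, ← Complex.normSq_eq_norm_sq]
      simp
    rw [e, abs_div, abs_of_nonneg hpos.le, div_le_div_iff₀ hpos hg]
    rw [abs_of_nonneg (by nlinarith)]
    have h3 : 2 * A * (z.re + A) ≤ 3 * A ^ 2 := by nlinarith
    calc 2 * A * (z.re + A) * (1 + |z.im|) ^ 2 ≤ 3 * A ^ 2 * (1 + |z.im|) ^ 2 := by gcongr
      _ = 24 * A ^ 2 * ((1 + |z.im|) ^ 2 / 8) := by ring
      _ ≤ 24 * A ^ 2 * ‖z + A‖ ^ 2 := by gcongr
  have hMn : 1 ≤ MA A ^ n := one_le_pow₀ hM1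
  have e : (1 - (1 - v) ^ n).re = n * v.re - ((1 - v) ^ n - 1 + n * v).re := by
    simp
  rw [e]
  have h4 : |((1 - v) ^ n - 1 + n * v).re| ≤ n ^ 2 * ‖v‖ ^ 2 * MA A ^ n :=
    (abs_re_le_norm _).trans hT
  have hnn : (n : ℝ) ≤ n ^ 2 := by
    rcases Nat.eq_zero_or_pos n with h | h
    · rw [h]; simp
    · have : (1 : ℝ) ≤ n := by exact_mod_cast h
      nlinarith
  calc |n * v.re - ((1 - v) ^ n - 1 + n * v).re|
      ≤ n * |v.re| + n ^ 2 * ‖v‖ ^ 2 * MA A ^ n := by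
        refine (abs_sub _ _).trans ?_
        rw [abs_mul, abs_of_nonneg hn0]
        linarith
    _ ≤ (n ^ 2 * MA A ^ n) * (24 * A ^ 2 / (1 + |z.im|) ^ 2) +
        n ^ 2 * (32 * A ^ 2 / (1 + |z.im|) ^ 2) * MA A ^ n := by
        have h5 : (n : ℝ) ≤ n ^ 2 * MA A ^ n := by
          calc (n : ℝ) ≤ n ^ 2 * 1 := by linarith
            _ ≤ n ^ 2 * MA A ^ n := by gcongr
        gcongr
    _ = 56 * (n ^ 2 * A ^ 2 * MA A ^ n) / (1 + |z.im|) ^ 2 := by ring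

lemma Cfg.sum_two (C : Cfg z m) : Summable fun i => m i / (1 + |(z i).im|) ^ 2 := by
  have := C.sum 2 (by norm_num)
  refine this.congr fun i => ?_
  rw [show (2 : ℝ) = ((2 : ℕ) : ℝ) by norm_num, Real.rpow_natCast]

lemma Cfg.summable_lam (C : Cfg z m) {A : ℝ} (hA : 1 ≤ A) (n : ℕ) :
    Summable fun i => m i * (1 - W A (z i) ^ n).re := by
  refine Summable.of_norm_bounded ((C.sum_two).mul_left (56 * (n ^ 2 * A ^ 2 * MA A ^ n))) fun i => ?_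
  rw [Real.norm_eq_abs, abs_mul, abs_of_nonneg (C.m_nonneg i)]
  have h := re_one_sub_pow hA (C.re_le i) n
  calc m i * |(1 - W A (z i) ^ n).re| ≤
      m i * (56 * (n ^ 2 * A ^ 2 * MA A ^ n) / (1 + |(z i).im|) ^ 2) :=
        mul_le_mul_of_nonneg_left h (C.m_nonneg i)
    _ = _ := by ring

end Pool.Agent.V11271.LI
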