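import Pool.Agent.V11271.LI.Cfg

set_option autoImplicit false

/-!
# The generating function
-/

namespace Pool.Agent.V11271.LI

open Complex Filter Topology
open scoped ComplexConjugate

variable {ι : Type*} {z : ι → ℂ} {m : ι → ℝ}

/-- the kernel -/
noncomputable def Q (zc : ℂ) (A : ℝ) (K : ℕ) (z : ℂ) : ℂ :=
  1 - 1 / 2 * ((z + A) / (z - zc)) ^ K - 1 / 2 * ((conj z + A) / (conj z - zc)) ^ K

lemma conj_W (A : ℝ) (z : ℂ) : conj (W A z) = W A (conj z) := by
  unfold W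
  rw [map_div₀, map_sub, map_add, Complex.conj_ofReal]

lemma conj_re_le {z : ℂ} (hz : |z.re| ≤ 1 / 2) : |(conj z).re| ≤ 1 / 2 := by simpa using hz

lemma one_sub_mul_W {A : ℝ} (hA : 1 ≤ A) {z zc x : ℂ} (hz : |z.re| ≤ 1 / 2) (hzc : zc.re < 0)
    (hx : x = (zc + A) / (zc - A)) : 1 - x * W A z = (1 - x) * ((z - zc) / (z + A)) := by
  have h1 := add_ne hA hz
  have h2 : zc - A ≠ 0 := by
    intro h
    have := congrArg Complex.re h
    simp at this
    linarith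
  rw [hx]
  unfold W
  field_simp
  ring

lemma one_sub_x_ne {A : ℝ} (hA : 1 ≤ A) {zc x : ℂ} (hzc : zc.re < 0)
    (hx : x = (zc + A) / (zc - A)) : 1 - x ≠ 0 := by
  have h2 : zc - A ≠ 0 := by
    intro h
    have := congrArg Complex.re h
    simp at this
    linarith
  have e : 1 - x = (-2 * A : ℂ) / (zc - A) := by
    rw [hx]
    field_simp
    ring
  rw [e]
  apply div_ne_zero _ h2
  have : (A : ℂ) ≠ 0 := by
    norm_cast
    linarith
  simpa using this

lemma sub_zc_ne {z zc : ℂ} (hz : |z.re| ≤ 1 / 2) (hzc : zc.re < -1 / 2) : z - zc ≠ 0 := by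
  intro h
  have := congrArg Complex.re h
  rw [abs_le] at hz
  simp at this
  linarith [hz.1]

lemma hasSum_Q {A : ℝ} (hA : 1 ≤ A) {z zc x : ℂ} (hz : |z.re| ≤ 1 / 2) (hzc : zc.re < -1 / 2)
    (hx : x = (zc + A) / (zc - A)) (hr : ‖x‖ * MA A < 1) (k : ℕ) :
    HasSum (fun n : ℕ => ((n + k).choose k : ℂ) * x ^ n * (((1 - W A z ^ n).re : ℝ) : ℂ))
      (((1 - x) ^ (k + 1))⁻¹ * Q zc A (k + 1) z) := by
  have hM1 := one_le_MA hA
  have hx1 : ‖x‖ < 1 := lt_of_le_of_lt (le_mul_of_one_le_right (norm_nonneg _) hM1) hr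
  have hw1 : ‖x * W A z‖ < 1 := by
    rw [norm_mul]
    refine lt_of_le_of_lt ?_ hr
    have := norm_W_le hA hz
    gcongr
  have hw2 : ‖x * W A (conj z)‖ < 1 := by
    rw [norm_mul]
    refine lt_of_le_of_lt ?_ hr
    have := norm_W_le hA (conj_re_le hz)
    gcongr
  have s1 := hasSum_choose_mul_geometric_of_norm_lt_one k hx1
  have s2 := (hasSum_choose_mul_geometric_of_norm_lt_one k hw1).mul_left (1 / 2)
  have s3 := (hasSum_choose_mul_geometric_of_norm_lt_one k hw2).mul_left (1 / 2)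
  have s4 := (s1.sub s2).sub s3
  have e1 : ∀ n : ℕ, ((n + k).choose k : ℂ) * x ^ n * (((1 - W A z ^ n).re : ℝ) : ℂ) =
      ((n + k).choose k : ℂ) * x ^ n - 1 / 2 * (((n + k).choose k : ℂ) * (x * W A z) ^ n) -
        1 / 2 * (((n + k).choose k : ℂ) * (x * W A (conj z)) ^ n) := by
    intro n
    have e2 : (((1 - W A z ^ n).re : ℝ) : ℂ) = 1 - 1 / 2 * W A z ^ n - 1 / 2 * W A (conj z) ^ n := by
      rw [← conj_W, ← map_pow, Complex.sub_re, Complex.ofReal_sub, Complex.re_eq_add_conj (W A z ^ n)]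
      simp
      ring
    rw [e2, mul_pow, mul_pow]
    ring
  have e3 : ((1 - x) ^ (k + 1))⁻¹ * Q zc A (k + 1) z =
      1 / (1 - x) ^ (k + 1) - 1 / 2 * (1 / (1 - x * W A z) ^ (k + 1)) -
        1 / 2 * (1 / (1 - x * W A (conj z)) ^ (k + 1)) := by
    rw [one_sub_mul_W hA hz (by linarith) hx, one_sub_mul_W hA (conj_re_le hz) (by linarith) hx]
    unfold Q
    have h1 := one_sub_x_ne hA (by linarith) hx
    have h2 := add_ne hA hz
    have h3 := add_ne hA (conj_re_le hz)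
    have h4 := sub_zc_ne hz hzc
    have h5 := sub_zc_ne (conj_re_le hz) hzc
    rw [mul_pow, mul_pow, div_pow, div_pow, div_pow, div_pow]
    field_simp
  rw [e3]
  refine s4.congr_fun ?_
  intro n
  exact e1 n

/-- a simple estimate for the weights -/
lemma sq_mul_choose_le (n k : ℕ) :
    (n : ℝ) ^ 2 * ((n + k).choose k : ℝ) ≤ ((k + 1) * (k + 2)) * ((n + (k + 2)).choose (k + 2) : ℝ) := by
  have h1 : (n + k + 1) * (n + k).choose k = (n + k + 1).choose (k + 1) * (k + 1) := by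
    have := Nat.add_one_mul_choose_eq (n + k) k
    simpa using this
  have h2 : (n + k + 1 + 1) * (n + k + 1).choose (k + 1) = (n + k + 1 + 1).choose (k + 1 + 1) * (k + 1 + 1) :=
    Nat.add_one_mul_choose_eq (n + k + 1) (k + 1)
  have h1' : ((n : ℝ) + k + 1) * ((n + k).choose k : ℝ) = ((n + k + 1).choose (k + 1) : ℝ) * (k + 1) := by
    exact_mod_cast h1
  have h2' : ((n : ℝ) + k + 1 + 1) * ((n + k + 1).choose (k + 1) : ℝ) =
      ((n + k + 1 + 1).choose (k + 1 + 1) : ℝ) * (k + 1 + 1) := by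
    exact_mod_cast h2
  have h3 : ((n + (k + 2)).choose (k + 2) : ℝ) = ((n + k + 1 + 1).choose (k + 1 + 1) : ℝ) := by
    norm_num [add_assoc]
  rw [h3]
  have h4 : ((k : ℝ) + 1) * (k + 2) * ((n + k + 1 + 1).choose (k + 1 + 1) : ℝ) =
      ((n : ℝ) + k + 1 + 1) * ((n : ℝ) + k + 1) * ((n + k).choose k : ℝ) := by
    linear_combination (-(k + 1 : ℝ)) * h2' - ((n : ℝ) + k + 1 + 1) * h1'
  rw [h4]
  have h5 : (0 : ℝ) ≤ n := Nat.cast_nonneg n
  have h6 : (0 : ℝ) ≤ k := Nat.cast_nonneg k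
  have : (n : ℝ) ^ 2 ≤ ((n : ℝ) + k + 1 + 1) * ((n : ℝ) + k + 1) := by nlinarith
  gcongr

lemma hasSum_sq (k : ℕ) {r : ℝ} (hr0 : 0 ≤ r) (hr : r < 1) :
    Summable (fun n : ℕ => (n : ℝ) ^ 2 * ((n + k).choose k : ℝ) * r ^ n) ∧
      ∑' n : ℕ, (n : ℝ) ^ 2 * ((n + k).choose k : ℝ) * r ^ n ≤
        ((k + 1) * (k + 2)) * ((1 - r) ^ (k + 3))⁻¹ := by
  have h := (hasSum_choose_mul_geometric_of_norm_lt_one (k + 2)
    (show ‖r‖ < 1 by rwa [Real.norm_eq_abs, abs_of_nonneg hr0])).mul_left (((k : ℝ) + 1) * (k + 2))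
  have hle : ∀ n : ℕ, (n : ℝ) ^ 2 * ((n + k).choose k : ℝ) * r ^ n ≤
      ((k + 1) * (k + 2)) * (((n + (k + 2)).choose (k + 2) : ℝ) * r ^ n) := by
    intro n
    rw [← mul_assoc]
    exact mul_le_mul_of_nonneg_right (sq_mul_choose_le n k) (by positivity)
  have hs : Summable (fun n : ℕ => (n : ℝ) ^ 2 * ((n + k).choose k : ℝ) * r ^ n) :=
    Summable.of_nonneg_of_le (fun n => by positivity) hle h.summable
  refine ⟨hs, ?_⟩
  have := hs.tsum_le_tsum hle h.summable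
  rw [h.tsum_eq] at this
  simpa [one_div, add_assoc] using this

/-- the generating function identity -/
theorem Cfg.gen (C : Cfg z m) {A : ℝ} (hA : 1 ≤ A) {zc x : ℂ} (hzc : zc.re < -1 / 2)
    (hx : x = (zc + A) / (zc - A)) (hr : ‖x‖ * MA A < 1) (k : ℕ) :
    (Summable fun i => (m i : ℂ) * Q zc A (k + 1) (z i)) ∧
    HasSum (fun n : ℕ => ((n + k).choose k : ℂ) * x ^ n * (lam z m A n : ℂ))
      (((1 - x) ^ (k + 1))⁻¹ * ∑' i, (m i : ℂ) * Q zc A (k + 1) (z i)) := by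
  have hM1 := one_le_MA hA
  have hx0 := one_sub_x_ne hA (by linarith) hx
  obtain ⟨F, hF⟩ : ∃ F : ℕ × ι → ℂ, F = fun q => ((q.1 + k).choose k : ℂ) * x ^ q.1 *
      ((m q.2 : ℂ) * (((1 - W A (z q.2) ^ q.1).re : ℝ) : ℂ)) := ⟨_, rfl⟩
  have hr0 : 0 ≤ ‖x‖ * MA A := by positivity
  obtain ⟨hs1, _⟩ := hasSum_sq k hr0 hr
  have hFs : Summable F := by
    have h1 : Summable fun q : ℕ × ι => ((q.1 : ℝ) ^ 2 * ((q.1 + k).choose k : ℝ) * (‖x‖ * MA A) ^ q.1) *
        (m q.2 / (1 + |(z q.2).im|) ^ 2) := by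
      apply hs1.mul_of_nonneg C.sum_two
      · intro n
        show 0 ≤ _
        positivity
      · intro i
        exact div_nonneg (C.m_nonneg i) (by positivity)
    refine Summable.of_norm_bounded (h1.mul_left (56 * A ^ 2)) fun q => ?_
    rw [hF]
    simp only [norm_mul, norm_pow, Complex.norm_real, Real.norm_eq_abs, Complex.norm_natCast]
    rw [abs_of_nonneg (C.m_nonneg q.2)]
    have h2 := re_one_sub_pow hA (C.re_le q.2) q.1
    calc ((q.1 + k).choose k : ℝ) * ‖x‖ ^ q.1 * (m q.2 * |(1 - W A (z q.2) ^ q.1).re|)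
        ≤ ((q.1 + k).choose k : ℝ) * ‖x‖ ^ q.1 * (m q.2 * (56 * (q.1 ^ 2 * A ^ 2 * MA A ^ q.1) /
            (1 + |(z q.2).im|) ^ 2)) := by
          apply mul_le_mul_of_nonneg_left _ (by positivity)
          exact mul_le_mul_of_nonneg_left h2 (C.m_nonneg q.2)
      _ = _ := by rw [mul_pow]; ring
  have hF1 : HasSum (fun n : ℕ => ((n + k).choose k : ℂ) * x ^ n * (lam z m A n : ℂ)) (∑' q, F q) := by
    refine hFs.hasSum.prod_fiberwise fun n => ?_
    have h2 := (Complex.hasSum_ofReal.mpr (C.summable_lam hA n).hasSum).mul_left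
      (((n + k).choose k : ℂ) * x ^ n)
    rw [hF]
    simp only
    unfold lam
    refine h2.congr_fun ?_
    intro i
    push_cast
    ring
  have hF2 : HasSum (fun i => ((1 - x) ^ (k + 1))⁻¹ * ((m i : ℂ) * Q zc A (k + 1) (z i))) (∑' q, F q) := by
    have h3 : HasSum (fun q : ι × ℕ => F q.swap) (∑' q, F q) := by
      have := (Equiv.prodComm ι ℕ).hasSum_iff.mpr hFs.hasSum
      exact this
    refine h3.prod_fiberwise fun i => ?_
    have h4 := (hasSum_Q hA (C.re_le i) hzc hx hr k).mul_left (m i : ℂ)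
    rw [hF]
    simp only [Prod.swap]
    have e : ((1 - x) ^ (k + 1))⁻¹ * ((m i : ℂ) * Q zc A (k + 1) (z i)) =
      (m i : ℂ) * (((1 - x) ^ (k + 1))⁻¹ * Q zc A (k + 1) (z i)) := by ring
    rw [e]
    refine h4.congr_fun ?_
    intro n
    ring
  have hne : ((1 - x) ^ (k + 1))⁻¹ ≠ 0 := inv_ne_zero (pow_ne_zero _ hx0)
  have hs2 : Summable fun i => (m i : ℂ) * Q zc A (k + 1) (z i) :=
    (summable_mul_left_iff hne).mp hF2.summable
  refine ⟨hs2, ?_⟩
  rw [← tsum_mul_left, hF2.tsum_eq]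
  exact hF1

end Pool.Agent.V11271.LI
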