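import Pool.Agent.V11271.LI.Neg1

set_option autoImplicit false

/-!
# Bounds for the kernel and its main term
-/

namespace Pool.Agent.V11271.LI

open Complex Filter Topology
open scoped ComplexConjugate

variable {ι : Type*} {z : ι → ℂ} {m : ι → ℝ}

lemma Q_neg_real (R A : ℝ) (K : ℕ) (z : ℂ) :
    Q (-(R : ℂ)) A K z = (((1 - ((z + A) / (z + R)) ^ K).re : ℝ) : ℂ) := by
  unfold Q
  have e : ((conj z + A) / (conj z - -(R : ℂ))) ^ K = conj (((z + A) / (z + R)) ^ K) := by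
    rw [map_pow, map_div₀, map_add, map_add, Complex.conj_ofReal, Complex.conj_ofReal, sub_neg_eq_add]
  rw [e, sub_neg_eq_add, Complex.sub_re, Complex.ofReal_sub, Complex.re_eq_add_conj (((z + A) / (z + R)) ^ K)]
  simp
  ring

lemma Q_real_le {A R : ℝ} (hA : 1 ≤ A) (hR : A ≤ R) {z : ℂ} (hz : |z.re| ≤ 1 / 2) {K : ℕ} (hK : 1 ≤ K)
    {e : ℝ} (he0 : 0 ≤ e) (he : e ≤ 1) :
    (1 - ((z + A) / (z + R)) ^ K).re ≤ 24 * (K * R / (1 + |z.im|)) ^ (1 + e) := by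
  have hR1 : 1 ≤ R := hA.trans hR
  have hneA := add_ne hA hz
  have hneR := add_ne hR1 hz
  have hz' := abs_le.mp hz
  have hK1 : (1 : ℝ) ≤ K := by exact_mod_cast hK
  have hle : ‖z + A‖ ≤ ‖z + R‖ := by
    rw [← abs_of_nonneg (norm_nonneg (z + A)), ← abs_of_nonneg (norm_nonneg (z + R))]
    apply sq_le_sq.mp
    rw [← Complex.normSq_eq_norm_sq, ← Complex.normSq_eq_norm_sq, Complex.normSq_apply, Complex.normSq_apply]
    simp only [add_re, add_im, ofReal_re, ofReal_im, add_zero]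
    nlinarith [hz'.1]
  have hposR : 0 < ‖z + R‖ := norm_pos_iff.mpr hneR
  have hu1 : ‖(z + A) / (z + R)‖ ≤ 1 := by
    rw [norm_div]
    exact div_le_one_of_le₀ hle hposR.le
  obtain ⟨t, ht⟩ : ∃ t : ℝ, t = K * R / (1 + |z.im|) := ⟨_, rfl⟩
  have ht0 : 0 < t := by rw [ht]; positivity
  rw [← ht]
  rcases le_or_gt 1 t with h | h
  · have h1 : (1 - ((z + A) / (z + R)) ^ K).re ≤ 2 := by
      refine (Complex.re_le_norm _).trans ((norm_sub_le _ _).trans ?_)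
      rw [norm_one, norm_pow]
      have := pow_le_one₀ (n := K) (norm_nonneg _) hu1
      linarith
    have h2 : (1 : ℝ) ≤ t ^ (1 + e) := Real.one_le_rpow h (by linarith)
    linarith
  · obtain ⟨v, hv⟩ : ∃ v : ℂ, v = ((R - A : ℝ) : ℂ) / (z + R) := ⟨_, rfl⟩
    have hu : (z + A) / (z + R) = 1 - v := by
      rw [hv]
      field_simp
      push_cast
      ring
    rw [hu]
    rw [hu] at hu1
    have hT := pow_taylor v 1 le_rfl hu1 K
    rw [one_pow, mul_one] at hT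
    have hlow := normSq_low hR1 hz
    have hg : 0 < (1 + |z.im|) ^ 2 := by positivity
    have hpos2 : 0 < ‖z + R‖ ^ 2 := by positivity
    have hv2 : ‖v‖ ^ 2 ≤ 8 * R ^ 2 / (1 + |z.im|) ^ 2 := by
      rw [hv, norm_div, div_pow, Complex.norm_real, Real.norm_eq_abs, abs_of_nonneg (by linarith),
        div_le_div_iff₀ hpos2 hg]
      calc (R - A) ^ 2 * (1 + |z.im|) ^ 2 ≤ R ^ 2 * (1 + |z.im|) ^ 2 := by
            have : 0 ≤ R - A := by linarith
            gcongr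
            linarith
        _ = 8 * R ^ 2 * ((1 + |z.im|) ^ 2 / 8) := by ring
        _ ≤ _ := by gcongr
    have hvre : |v.re| ≤ 16 * R ^ 2 / (1 + |z.im|) ^ 2 := by
      have e : v.re = (R - A) * (z.re + R) / ‖z + R‖ ^ 2 := by
        rw [hv, Complex.div_re, ← Complex.normSq_eq_norm_sq]
        simp
      rw [e, abs_div, abs_of_nonneg hpos2.le, div_le_div_iff₀ hpos2 hg]
      rw [abs_of_nonneg (mul_nonneg (by linarith) (by linarith))]
      have h3 : (R - A) * (z.re + R) ≤ 2 * R ^ 2 := by nlinarith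
      calc (R - A) * (z.re + R) * (1 + |z.im|) ^ 2 ≤ 2 * R ^ 2 * (1 + |z.im|) ^ 2 := by gcongr
        _ = 16 * R ^ 2 * ((1 + |z.im|) ^ 2 / 8) := by ring
        _ ≤ 16 * R ^ 2 * ‖z + R‖ ^ 2 := by gcongr
    have e1 : (1 - (1 - v) ^ K).re = K * v.re - ((1 - v) ^ K - 1 + K * v).re := by simp
    rw [e1]
    have h4 : |((1 - v) ^ K - 1 + K * v).re| ≤ K ^ 2 * ‖v‖ ^ 2 := (abs_re_le_norm _).trans hT
    have h5 : (K : ℝ) * v.re - ((1 - v) ^ K - 1 + K * v).re ≤ K * |v.re| + K ^ 2 * ‖v‖ ^ 2 := by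
      have h6 := (abs_le.mp h4).1
      have h7 : (K : ℝ) * v.re ≤ K * |v.re| := by
        gcongr
        exact le_abs_self _
      linarith
    have h8 : (K : ℝ) * |v.re| + K ^ 2 * ‖v‖ ^ 2 ≤ 24 * t ^ 2 := by
      calc (K : ℝ) * |v.re| + K ^ 2 * ‖v‖ ^ 2 ≤ K ^ 2 * (16 * R ^ 2 / (1 + |z.im|) ^ 2) +
            K ^ 2 * (8 * R ^ 2 / (1 + |z.im|) ^ 2) := by
            have : (K : ℝ) ≤ K ^ 2 := by nlinarith
            gcongr
        _ = 24 * t ^ 2 := by rw [ht, div_pow, mul_pow]; ring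
    have h9 : t ^ 2 ≤ t ^ (1 + e) := by
      rw [← Real.rpow_two]
      exact Real.rpow_le_rpow_of_exponent_ge ht0 h.le (by linarith)
    linarith

/-- bound for the kernel far away -/
lemma Q_far {A : ℝ} (hA : 1 ≤ A) {zc z : ℂ} (hz : |z.re| ≤ 1 / 2) (K : ℕ) {M : ℝ} (hM1 : 1 ≤ M)
    (h1 : ‖(z + A) / (z - zc)‖ ≤ M) (h2 : ‖(conj z + A) / (conj z - zc)‖ ≤ M)
    (hfar : 2 * ‖zc‖ + 1 ≤ |z.im|) (hzA : ‖zc‖ + 1 / 2 ≤ A) :
    ‖Q zc A K z‖ ≤ 128 * (K ^ 2 * A ^ 2 * M ^ K) / (1 + |z.im|) ^ 2 := by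
  have hzc0 := norm_nonneg zc
  have low : ∀ y : ℂ, |y.im| = |z.im| → (1 + |z.im|) / 4 ≤ ‖y - zc‖ := by
    intro y hy
    have h3 : |y.im| - ‖zc‖ ≤ ‖y - zc‖ := by
      have h4 := abs_im_le_norm y
      have h5 := norm_sub_norm_le y zc
      linarith
    rw [hy] at h3
    linarith
  have l1 := low z rfl
  have l2 := low (conj z) (by simp)
  have hg : 0 < (1 + |z.im|) := by positivity
  have hp1 : 0 < ‖z - zc‖ := lt_of_lt_of_le (by positivity) l1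
  have hp2 : 0 < ‖conj z - zc‖ := lt_of_lt_of_le (by positivity) l2
  have hn1 : z - zc ≠ 0 := norm_pos_iff.mp hp1
  have hn2 : conj z - zc ≠ 0 := norm_pos_iff.mp hp2
  obtain ⟨v, hv⟩ : ∃ v : ℂ, v = -((A : ℂ) + zc) / (z - zc) := ⟨_, rfl⟩
  obtain ⟨w, hw⟩ : ∃ w : ℂ, w = -((A : ℂ) + zc) / (conj z - zc) := ⟨_, rfl⟩
  have e1 : (z + A) / (z - zc) = 1 - v := by rw [hv]; field_simp; ring
  have e2 : (conj z + A) / (conj z - zc) = 1 - w := by rw [hw]; field_simp; ring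
  have hAz : ‖-((A : ℂ) + zc)‖ ≤ 2 * A := by
    rw [norm_neg]
    refine (norm_add_le _ _).trans ?_
    rw [Complex.norm_real, Real.norm_eq_abs, abs_of_nonneg (by linarith)]
    linarith
  have bv : ‖v‖ ≤ 8 * A / (1 + |z.im|) := by
    rw [hv, norm_div, div_le_div_iff₀ hp1 hg]
    calc ‖-((A : ℂ) + zc)‖ * (1 + |z.im|) ≤ 2 * A * (1 + |z.im|) := by gcongr
      _ = 8 * A * ((1 + |z.im|) / 4) := by ring
      _ ≤ _ := by gcongr
  have bw : ‖w‖ ≤ 8 * A / (1 + |z.im|) := by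
    rw [hw, norm_div, div_le_div_iff₀ hp2 hg]
    calc ‖-((A : ℂ) + zc)‖ * (1 + |z.im|) ≤ 2 * A * (1 + |z.im|) := by gcongr
      _ = 8 * A * ((1 + |z.im|) / 4) := by ring
      _ ≤ _ := by gcongr
  have bvw : ‖v + w‖ ≤ 128 * A ^ 2 / (1 + |z.im|) ^ 2 := by
    have e3 : v + w = -((A : ℂ) + zc) * (2 * (z.re : ℂ) - 2 * zc) / ((z - zc) * (conj z - zc)) := by
      have e4 : (2 * (z.re : ℂ)) = z + conj z := by rw [Complex.add_conj]; push_cast; ring
      rw [hv, hw, e4]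
      field_simp
      ring
    have h5 : ‖(2 * (z.re : ℂ) - 2 * zc)‖ ≤ 4 * A := by
      refine (norm_sub_le _ _).trans ?_
      rw [norm_mul, norm_mul, Complex.norm_real, Real.norm_eq_abs]
      simp only [Complex.norm_ofNat]
      linarith
    rw [e3, norm_div, norm_mul, norm_mul, div_le_div_iff₀ (by positivity) (by positivity)]
    calc ‖-((A : ℂ) + zc)‖ * ‖(2 * (z.re : ℂ) - 2 * zc)‖ * (1 + |z.im|) ^ 2
        ≤ 2 * A * (4 * A) * (1 + |z.im|) ^ 2 := by gcongr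
      _ = 128 * A ^ 2 * (((1 + |z.im|) / 4) * ((1 + |z.im|) / 4)) := by ring
      _ ≤ _ := by gcongr
  rw [e1] at h1
  rw [e2] at h2
  have t1 := pow_taylor v M hM1 h1 K
  have t2 := pow_taylor w M hM1 h2 K
  have e5 : Q zc A K z = K * (v + w) / 2 - ((1 - v) ^ K - 1 + K * v) / 2 - ((1 - w) ^ K - 1 + K * w) / 2 := by
    unfold Q
    rw [e1, e2]
    ring
  rw [e5]
  have hMK : 1 ≤ M ^ K := one_le_pow₀ hM1
  have hK0 : (0 : ℝ) ≤ K := Nat.cast_nonneg K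
  have hKK : (K : ℝ) ≤ K ^ 2 := by
    rcases Nat.eq_zero_or_pos K with h | h
    · rw [h]; simp
    · have : (1 : ℝ) ≤ K := by exact_mod_cast h
      nlinarith
  calc ‖K * (v + w) / 2 - ((1 - v) ^ K - 1 + K * v) / 2 - ((1 - w) ^ K - 1 + K * w) / 2‖
      ≤ K * ‖v + w‖ / 2 + ‖(1 - v) ^ K - 1 + K * v‖ / 2 + ‖(1 - w) ^ K - 1 + K * w‖ / 2 := by
        refine (norm_sub_le _ _).trans ?_
        refine (add_le_add_left (norm_sub_le _ _) _).trans ?_
        simp only [norm_div, norm_mul, Complex.norm_natCast, Complex.norm_ofNat]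
        exact le_rfl
    _ ≤ (K ^ 2 * M ^ K) * (128 * A ^ 2 / (1 + |z.im|) ^ 2) / 2 +
        (K ^ 2 * (8 * A / (1 + |z.im|)) ^ 2 * M ^ K) / 2 + (K ^ 2 * (8 * A / (1 + |z.im|)) ^ 2 * M ^ K) / 2 := by
        have h6 : (K : ℝ) ≤ K ^ 2 * M ^ K := by
          calc (K : ℝ) ≤ K ^ 2 * 1 := by linarith
            _ ≤ K ^ 2 * M ^ K := by gcongr
        have h7 : ‖(1 - v) ^ K - 1 + K * v‖ ≤ K ^ 2 * (8 * A / (1 + |z.im|)) ^ 2 * M ^ K := by
          refine t1.trans ?_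
          gcongr
        have h8 : ‖(1 - w) ^ K - 1 + K * w‖ ≤ K ^ 2 * (8 * A / (1 + |z.im|)) ^ 2 * M ^ K := by
          refine t2.trans ?_
          gcongr
        have h9 : (K : ℝ) * ‖v + w‖ ≤ (K ^ 2 * M ^ K) * (128 * A ^ 2 / (1 + |z.im|) ^ 2) := by gcongr
        linarith
    _ = _ := by
        rw [div_pow]
        ring

lemma norm_ratio_far {A : ℝ} (hA : 1 ≤ A) {zc z : ℂ} (hfar : 2 * ‖zc‖ + 1 ≤ |z.im|) (hzA : ‖zc‖ + 1 / 2 ≤ A) :
    ‖(z + A) / (z - zc)‖ ≤ 1 + 4 * A / |z.im| := by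
  have hzc0 := norm_nonneg zc
  have h3 : |z.im| / 2 ≤ ‖z - zc‖ := by
    have h4 := abs_im_le_norm z
    have h5 := norm_sub_norm_le z zc
    linarith
  have hg : 0 < |z.im| := by linarith
  have hp1 : 0 < ‖z - zc‖ := lt_of_lt_of_le (by positivity) h3
  have hn1 : z - zc ≠ 0 := norm_pos_iff.mp hp1
  have e1 : (z + A) / (z - zc) = 1 + ((A : ℂ) + zc) / (z - zc) := by field_simp; ring
  rw [e1]
  refine (norm_add_le _ _).trans ?_
  rw [norm_one, norm_div]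
  have hAz : ‖((A : ℂ) + zc)‖ ≤ 2 * A := by
    refine (norm_add_le _ _).trans ?_
    rw [Complex.norm_real, Real.norm_eq_abs, abs_of_nonneg (by linarith)]
    linarith
  have : ‖((A : ℂ) + zc)‖ / ‖z - zc‖ ≤ 4 * A / |z.im| := by
    rw [div_le_div_iff₀ hp1 hg]
    calc ‖(A : ℂ) + zc‖ * |z.im| ≤ 2 * A * |z.im| := by gcongr
      _ = 4 * A * (|z.im| / 2) := by ring
      _ ≤ _ := by gcongr
  linarith

end Pool.Agent.V11271.LI
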