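import Pool.Agent.V11271.LI.Neg2

set_option autoImplicit false

/-!
# Asymptotics
-/

namespace Pool.Agent.V11271.LI

open Complex Filter Topology
open scoped ComplexConjugate

variable {ι : Type*} {z : ι → ℂ} {m : ι → ℝ}

/-- the number of factors (minus one) -/
noncomputable def KK (c A : ℝ) : ℕ := ⌊c * Real.log A⌋₊

lemma KK_div {c : ℝ} (hc : 0 < c) :
    Tendsto (fun A : ℝ => ((KK c A + 1 : ℕ) : ℝ) / Real.log A) atTop (𝓝 c) := by
  have h1 : Tendsto (fun A : ℝ => ((KK c A : ℕ) : ℝ) / Real.log A) atTop (𝓝 c) :=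
    (tendsto_nat_floor_mul_div_atTop hc.le).comp Real.tendsto_log_atTop
  have h2 : Tendsto (fun A : ℝ => 1 / Real.log A) atTop (𝓝 0) :=
    (Real.tendsto_log_atTop).const_div_atTop 1
  have h3 := h1.add h2
  rw [add_zero] at h3
  refine h3.congr fun A => ?_
  push_cast
  ring

lemma KK_atTop {c : ℝ} (hc : 0 < c) : Tendsto (fun A : ℝ => KK c A + 1) atTop atTop := by
  have h1 : Tendsto (fun A : ℝ => ⌊c * Real.log A⌋₊) atTop atTop :=
    tendsto_nat_floor_atTop.comp (Real.tendsto_log_atTop.const_mul_atTop hc)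
  exact tendsto_atTop_mono (fun A => by unfold KK; omega) h1

lemma pow_le_rpow {c : ℝ} (hc : 0 < c) {f : ℝ → ℝ} {F e : ℝ} (hf : Tendsto f atTop (𝓝 F)) (hF : 0 < F)
    (he : c * Real.log F < e) : ∀ᶠ A : ℝ in atTop, f A ^ (KK c A + 1) ≤ A ^ e := by
  have h1 : Tendsto (fun A : ℝ => ((KK c A + 1 : ℕ) : ℝ) / Real.log A * Real.log (f A)) atTop
      (𝓝 (c * Real.log F)) := (KK_div hc).mul (hf.log hF.ne')
  filter_upwards [h1.eventually_le_const he, hf.eventually_const_lt hF, eventually_gt_atTop 1] with A h2 h3 h4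
  have h5 : 0 < Real.log A := Real.log_pos h4
  have h6 : ((KK c A + 1 : ℕ) : ℝ) * Real.log (f A) ≤ Real.log A * e := by
    have e1 : ((KK c A + 1 : ℕ) : ℝ) / Real.log A * Real.log (f A) * Real.log A =
      ((KK c A + 1 : ℕ) : ℝ) * Real.log (f A) := by field_simp
    rw [← e1, mul_comm (Real.log A)]
    gcongr
  rw [Real.rpow_def_of_pos (by linarith), ← Real.rpow_natCast, Real.rpow_def_of_pos h3]
  apply Real.exp_le_exp.mpr
  linarith

lemma KK_le_rpow {c e : ℝ} (hc : 0 < c) (he : 0 < e) :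
    ∀ᶠ A : ℝ in atTop, ((KK c A + 1 : ℕ) : ℝ) ≤ A ^ e := by
  have h := (isLittleO_log_rpow_atTop he).bound (show 0 < (c + 1)⁻¹ by positivity)
  filter_upwards [(KK_div hc).eventually_le_const (show c < c + 1 by linarith), eventually_gt_atTop 1, h]
    with A h1 h2 h3
  have h5 : 0 < Real.log A := Real.log_pos h2
  rw [Real.norm_eq_abs, Real.norm_eq_abs, abs_of_nonneg h5.le, abs_of_nonneg (Real.rpow_nonneg (by linarith) _)] at h3
  rw [div_le_iff₀ h5] at h1
  calc ((KK c A + 1 : ℕ) : ℝ) ≤ (c + 1) * Real.log A := h1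
    _ ≤ (c + 1) * ((c + 1)⁻¹ * A ^ e) := by gcongr
    _ = A ^ e := by field_simp

lemma tendsto_pow_zero {f : ℝ → ℂ} {L : ℂ} {K : ℝ → ℕ} (hf : Tendsto f atTop (𝓝 L)) (hL : ‖L‖ < 1)
    (hK : Tendsto K atTop atTop) : Tendsto (fun A => f A ^ K A) atTop (𝓝 0) := by
  obtain ⟨q, hq1, hq2⟩ := exists_between hL
  have hq0 : 0 ≤ q := (norm_nonneg L).trans hq1.le
  have h1 : Tendsto (fun A => q ^ K A) atTop (𝓝 0) := (tendsto_pow_atTop_nhds_zero_of_lt_one hq0 hq2).comp hK
  apply squeeze_zero_norm' _ h1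
  filter_upwards [hf.norm.eventually_le_const hq1] with A hA
  rw [norm_pow]
  gcongr

/-- the ratio with the real variable tends to one -/
lemma tendsto_ratio (y p : ℂ) : Tendsto (fun A : ℝ => (y + A) / (p + A)) atTop (𝓝 1) := by
  have hA : Tendsto (fun A : ℝ => ((A⁻¹ : ℝ) : ℂ)) atTop (𝓝 0) := by
    have h := (Complex.continuous_ofReal.tendsto 0).comp (tendsto_inv_atTop_zero (𝕜 := ℝ))
    rw [Complex.ofReal_zero] at h
    exact h
  have h1 : Tendsto (fun A : ℝ => (y * ((A⁻¹ : ℝ) : ℂ) + 1) / (p * ((A⁻¹ : ℝ) : ℂ) + 1)) atTop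
      (𝓝 ((y * 0 + 1) / (p * 0 + 1))) := by
    apply Tendsto.div
    · exact (hA.const_mul y).add_const 1
    · exact (hA.const_mul p).add_const 1
    · simp
  have e : (y * 0 + 1) / (p * 0 + 1) = 1 := by simp
  rw [e] at h1
  refine h1.congr' ?_
  filter_upwards [eventually_gt_atTop 0] with A hA0
  have hA1 : (A : ℂ) ≠ 0 := by
    norm_cast
    exact hA0.ne'
  have e1 : y * ((A⁻¹ : ℝ) : ℂ) + 1 = (y + A) / A := by
    push_cast
    field_simp
  have e2 : p * ((A⁻¹ : ℝ) : ℂ) + 1 = (p + A) / A := by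
    push_cast
    field_simp
  rw [e1, e2, div_div_div_cancel_right₀ hA1]

lemma tendsto_inv_u (p zc : ℂ) (hp : p ≠ zc) : Tendsto (fun A : ℝ => (p - zc) / (p + A)) atTop (𝓝 0) := by
  have hA : Tendsto (fun A : ℝ => ((A⁻¹ : ℝ) : ℂ)) atTop (𝓝 0) := by
    have h := (Complex.continuous_ofReal.tendsto 0).comp (tendsto_inv_atTop_zero (𝕜 := ℝ))
    rw [Complex.ofReal_zero] at h
    exact h
  have h1 : Tendsto (fun A : ℝ => (p - zc) * ((A⁻¹ : ℝ) : ℂ) / (p * ((A⁻¹ : ℝ) : ℂ) + 1)) atTop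
      (𝓝 ((p - zc) * 0 / (p * 0 + 1))) := by
    apply Tendsto.div
    · exact (hA.const_mul _)
    · exact (hA.const_mul p).add_const 1
    · simp
  have e : (p - zc) * 0 / (p * 0 + 1) = 0 := by simp
  rw [e] at h1
  refine h1.congr' ?_
  filter_upwards [eventually_gt_atTop 0] with A hA0
  have hA1 : (A : ℂ) ≠ 0 := by
    norm_cast
    exact hA0.ne'
  have e1 : (p - zc) * ((A⁻¹ : ℝ) : ℂ) = (p - zc) / A := by
    push_cast
    field_simp
  have e2 : p * ((A⁻¹ : ℝ) : ℂ) + 1 = (p + A) / A := by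
    push_cast
    field_simp
  rw [e1, e2, div_div_div_cancel_right₀ hA1]

open Classical in
/-- pointwise limit of the power of ratio -/
lemma tendsto_term {y p zc : ℂ} (hp : p ≠ zc) (h : y ≠ p → ‖p - zc‖ < ‖y - zc‖) {K : ℝ → ℕ}
    (hK : Tendsto K atTop atTop) :
    Tendsto (fun A : ℝ => ((y + A) / (y - zc)) ^ K A / ((p + A) / (p - zc)) ^ K A) atTop
      (𝓝 (if y = p then 1 else 0)) := by
  have hpz : p - zc ≠ 0 := sub_ne_zero.mpr hp
  have hA0 : ∀ᶠ A : ℝ in atTop, p + (A : ℂ) ≠ 0 := by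
    filter_upwards [eventually_gt_atTop (-p.re)] with A hA h0
    have := congrArg Complex.re h0
    simp at this
    linarith
  split_ifs with hy
  · refine tendsto_const_nhds.congr' ?_
    filter_upwards [hA0] with A hA
    rw [hy, div_self]
    exact pow_ne_zero _ (div_ne_zero hA hpz)
  · have hd := h hy
    have hd0 : 0 < ‖p - zc‖ := norm_pos_iff.mpr hpz
    have hyz : y - zc ≠ 0 := norm_pos_iff.mp (hd0.trans hd)
    have h1 : Tendsto (fun A : ℝ => (y + A) / (p + A) * ((p - zc) / (y - zc))) atTop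
        (𝓝 (1 * ((p - zc) / (y - zc)))) := (tendsto_ratio y p).mul_const _
    rw [one_mul] at h1
    have h2 : ‖(p - zc) / (y - zc)‖ < 1 := by
      rw [norm_div, div_lt_one (hd0.trans hd)]
      exact hd
    refine (tendsto_pow_zero h1 h2 hK).congr' ?_
    filter_upwards [hA0] with A hA
    rw [← div_pow]
    congr 1
    field_simp

open Classical in
/-- the main limit -/
theorem Cfg.main_lim (C : Cfg z m) {zc p : ℂ} (hp : p ≠ zc)
    (h1 : ∀ i, z i ≠ p → ‖p - zc‖ < ‖z i - zc‖) (h2 : ∀ i, conj (z i) ≠ p → ‖p - zc‖ < ‖conj (z i) - zc‖)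
    {c : ℝ} (hc0 : 0 < c) (hc : 2 < c * Real.log 2) :
    Tendsto (fun A : ℝ => ∑' i, (m i : ℂ) * Q zc A (KK c A + 1) (z i) / ((p + A) / (p - zc)) ^ (KK c A + 1))
      atTop (𝓝 (∑' i, (m i : ℂ) * (-(1 / 2 * (if z i = p then 1 else 0)) -
        1 / 2 * (if conj (z i) = p then 1 else 0)))) := by
  have hpz : p - zc ≠ 0 := sub_ne_zero.mpr hp
  have hd0 : 0 < ‖p - zc‖ := norm_pos_iff.mpr hpz
  obtain ⟨d, hd⟩ : ∃ d : ℝ, d = ‖p - zc‖ := ⟨_, rfl⟩
  rw [← hd] at hd0
  have hK := KK_atTop hc0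
  obtain ⟨Γ, hΓ⟩ : ∃ Γ : ℝ, Γ = 2 * ‖zc‖ + 1 + 16 * d := ⟨_, rfl⟩
  have hΓ0 : 0 < Γ := by
    have := norm_nonneg zc
    rw [hΓ]
    positivity
  -- pointwise limits
  have hpt : ∀ i, Tendsto (fun A : ℝ => (m i : ℂ) * Q zc A (KK c A + 1) (z i) /
      ((p + A) / (p - zc)) ^ (KK c A + 1)) atTop
      (𝓝 ((m i : ℂ) * (-(1 / 2 * (if z i = p then 1 else 0)) - 1 / 2 * (if conj (z i) = p then 1 else 0)))) := by
    intro i
    have t1 := (tendsto_term hp (h1 i) hK).const_mul (1 / 2 : ℂ)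
    have t2 := (tendsto_term hp (h2 i) hK).const_mul (1 / 2 : ℂ)
    have t0 := tendsto_pow_zero (tendsto_inv_u p zc hp) (by simp) hK
    have t3 := ((t0.sub t1).sub t2).const_mul (m i : ℂ)
    rw [zero_sub] at t3
    refine t3.congr fun A => ?_
    unfold Q
    have e0 : ((p - zc) / (p + A)) ^ (KK c A + 1) = 1 / ((p + A) / (p - zc)) ^ (KK c A + 1) := by
      rw [one_div, ← inv_pow, inv_div]
    rw [e0]
    ring
  -- bound
  have hnear : ∀ᶠ A : ℝ in atTop, ∀ i, |(z i).im| ≤ Γ → ‖(m i : ℂ) * Q zc A (KK c A + 1) (z i) /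
      ((p + A) / (p - zc)) ^ (KK c A + 1)‖ ≤ ‖((m i : ℂ) * (-(1 / 2 * (if z i = p then 1 else 0)) -
        1 / 2 * (if conj (z i) = p then 1 else 0)))‖ + 1 := by
    have hfin : {i | |(z i).im| ≤ Γ}.Finite := by
      have h := C.sum_two.tendsto_cofinite_zero
      have h1 : ∀ᶠ i in cofinite, m i / (1 + |(z i).im|) ^ 2 < 1 / (1 + Γ) ^ 2 :=
        h.eventually_lt_const (by positivity)
      rw [eventually_cofinite] at h1
      refine h1.subset fun i hi => ?_
      simp only [Set.mem_ofPred_eq, not_lt] at hi ⊢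
      have h2 := C.one_le i
      calc 1 / (1 + Γ) ^ 2 ≤ 1 / (1 + |(z i).im|) ^ 2 := by
            apply one_div_le_one_div_of_le (by positivity)
            gcongr
        _ ≤ m i / (1 + |(z i).im|) ^ 2 := by gcongr
    have h3 := (hfin.eventually_all (l := atTop) (p := fun i A => ‖(m i : ℂ) * Q zc A (KK c A + 1) (z i) /
      ((p + A) / (p - zc)) ^ (KK c A + 1)‖ ≤ ‖((m i : ℂ) * (-(1 / 2 * (if z i = p then 1 else 0)) -
        1 / 2 * (if conj (z i) = p then 1 else 0)))‖ + 1)).mpr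
      (fun i _ => (hpt i).norm.eventually_le_const (by linarith))
    exact h3
  have hsmall : ∀ᶠ A : ℝ in atTop, ((KK c A + 1 : ℕ) : ℝ) ^ 2 * A ^ 2 * (1 / 2 : ℝ) ^ (KK c A + 1) ≤ 1 := by
    obtain ⟨e, he1, he2⟩ := exists_between hc
    have h3 := pow_le_rpow hc0 (f := fun _ => 1 / 2) (F := 1 / 2) (e := -e) tendsto_const_nhds (by norm_num)
      (by rw [one_div, Real.log_inv]; linarith)
    have h4 := KK_le_rpow hc0 (show 0 < (e - 2) / 2 by linarith)
    filter_upwards [h3, h4, eventually_gt_atTop 0] with A h5 h6 h7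
    calc ((KK c A + 1 : ℕ) : ℝ) ^ 2 * A ^ 2 * (1 / 2 : ℝ) ^ (KK c A + 1) ≤
        (A ^ ((e - 2) / 2)) ^ 2 * A ^ 2 * A ^ (-e) := by gcongr
      _ = 1 := by
        rw [← Real.rpow_natCast, ← Real.rpow_natCast, ← Real.rpow_mul h7.le, ← Real.rpow_add h7,
          ← Real.rpow_add h7]
        norm_num
  have hfar : ∀ᶠ A : ℝ in atTop, ∀ i, Γ < |(z i).im| → ‖(m i : ℂ) * Q zc A (KK c A + 1) (z i) /
      ((p + A) / (p - zc)) ^ (KK c A + 1)‖ ≤ 128 * (m i / (1 + |(z i).im|) ^ 2) := by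
    filter_upwards [hsmall, eventually_ge_atTop (1 : ℝ), eventually_ge_atTop (‖zc‖ + 1 / 2),
      eventually_ge_atTop (4 * d + 2 * ‖p‖)] with A g1 g2 g3 g4 i hi
    have hA0 : 0 < A := by linarith
    obtain ⟨M, hM⟩ : ∃ M : ℝ, M = 1 + A / (4 * d) := ⟨_, rfl⟩
    have hM1 : 1 ≤ M := by
      have : 0 ≤ A / (4 * d) := by positivity
      rw [hM]
      linarith
    have hr : ∀ y : ℂ, |y.im| = |(z i).im| → ‖(y + A) / (y - zc)‖ ≤ M := by
      intro y hy
      have hfar : 2 * ‖zc‖ + 1 ≤ |y.im| := by rw [hy]; linarith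
      refine (norm_ratio_far g2 hfar g3).trans ?_
      have h16 : 16 * d ≤ |y.im| := by
        have := norm_nonneg zc
        rw [hy]
        linarith
      have : 4 * A / |y.im| ≤ A / (4 * d) := by
        rw [div_le_div_iff₀ (by linarith) (by positivity)]
        nlinarith
      rw [hM]
      linarith
    have hQ := Q_far g2 (C.re_le i) (zc := zc) (KK c A + 1) hM1 (hr (z i) rfl) (hr (conj (z i)) (by simp))
      (by linarith) g3
    have hu : 2 * M ≤ ‖(p + A) / (p - zc)‖ := by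
      rw [norm_div, ← hd, le_div_iff₀ hd0]
      have h5 : A - ‖p‖ ≤ ‖p + A‖ := by
        have := norm_sub_norm_le (A : ℂ) (-p)
        rw [Complex.norm_real, Real.norm_eq_abs, abs_of_nonneg hA0.le, norm_neg, sub_neg_eq_add,
          add_comm (A : ℂ)] at this
        exact this
      have e : 2 * M * d = 2 * d + A / 2 := by
        rw [hM]
        field_simp
        ring
      rw [e]
      linarith
    have hMpos : 0 < M := by linarith
    have hupos : 0 < ‖(p + A) / (p - zc)‖ ^ (KK c A + 1) := by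
      have : 0 < ‖(p + A) / (p - zc)‖ := by linarith
      positivity
    have hg : 0 < (1 + |(z i).im|) ^ 2 := by positivity
    rw [norm_div, norm_mul, norm_pow, Complex.norm_real, Real.norm_eq_abs, abs_of_nonneg (C.m_nonneg i),
      div_le_iff₀ hupos]
    have h6 : M ^ (KK c A + 1) ≤ (1 / 2 : ℝ) ^ (KK c A + 1) * ‖(p + A) / (p - zc)‖ ^ (KK c A + 1) := by
      rw [← mul_pow]
      gcongr
      linarith
    calc m i * ‖Q zc A (KK c A + 1) (z i)‖
        ≤ m i * (128 * (((KK c A + 1 : ℕ) : ℝ) ^ 2 * A ^ 2 * M ^ (KK c A + 1)) / (1 + |(z i).im|) ^ 2) :=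
          mul_le_mul_of_nonneg_left hQ (C.m_nonneg i)
      _ ≤ m i * (128 * (((KK c A + 1 : ℕ) : ℝ) ^ 2 * A ^ 2 * ((1 / 2 : ℝ) ^ (KK c A + 1) *
            ‖(p + A) / (p - zc)‖ ^ (KK c A + 1))) / (1 + |(z i).im|) ^ 2) := by
          have := C.m_nonneg i
          gcongr
      _ = 128 * (m i / (1 + |(z i).im|) ^ 2) * ‖(p + A) / (p - zc)‖ ^ (KK c A + 1) *
            (((KK c A + 1 : ℕ) : ℝ) ^ 2 * A ^ 2 * (1 / 2 : ℝ) ^ (KK c A + 1)) := by
          ring
      _ ≤ 128 * (m i / (1 + |(z i).im|) ^ 2) * ‖(p + A) / (p - zc)‖ ^ (KK c A + 1) * 1 := by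
          have := C.m_nonneg i
          gcongr
      _ = _ := by ring
  refine tendsto_tsum_of_dominated_convergence
    (bound := fun i => (128 + 2 * (1 + Γ) ^ 2) * (m i / (1 + |(z i).im|) ^ 2)) (C.sum_two.mul_left _) hpt ?_
  filter_upwards [hnear, hfar] with A hn hf i
  have hm1 := C.one_le i
  have hm0 := C.m_nonneg i
  have hg : 0 < (1 + |(z i).im|) ^ 2 := by positivity
  rcases le_or_gt |(z i).im| Γ with h | h
  · refine (hn i h).trans ?_
    have h3 : ‖((m i : ℂ) * (-(1 / 2 * (if z i = p then 1 else 0)) -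
        1 / 2 * (if conj (z i) = p then 1 else 0)))‖ ≤ m i := by
      rw [norm_mul, Complex.norm_real, Real.norm_eq_abs, abs_of_nonneg hm0]
      have : ‖(-(1 / 2 * (if z i = p then (1 : ℂ) else 0)) - 1 / 2 * (if conj (z i) = p then 1 else 0))‖ ≤ 1 := by
        refine (norm_sub_le _ _).trans ?_
        split_ifs <;> norm_num
      calc m i * _ ≤ m i * 1 := by gcongr
        _ = m i := mul_one _
    have h4 : 2 * m i ≤ 2 * (1 + Γ) ^ 2 * (m i / (1 + |(z i).im|) ^ 2) := by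
      rw [mul_div_assoc', le_div_iff₀ hg]
      have : (1 + |(z i).im|) ^ 2 ≤ (1 + Γ) ^ 2 := by gcongr
      nlinarith
    have h5 : 0 ≤ m i / (1 + |(z i).im|) ^ 2 := by positivity
    linarith
  · refine (hf i h).trans ?_
    have h5 : 0 ≤ m i / (1 + |(z i).im|) ^ 2 := by positivity
    have h6 : 0 ≤ 2 * (1 + Γ) ^ 2 * (m i / (1 + |(z i).im|) ^ 2) := by positivity
    linarith

open Classical in
/-- the limit is at least one half in size -/
lemma Cfg.lim_norm (C : Cfg z m) {p : ℂ} (hp : ∃ i, z i = p ∨ conj (z i) = p) :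
    1 / 2 ≤ ‖∑' i, (m i : ℂ) * (-(1 / 2 * (if z i = p then 1 else 0)) -
        1 / 2 * (if conj (z i) = p then 1 else 0))‖ := by
  obtain ⟨g, hg⟩ : ∃ g : ι → ℝ, g = fun i => m i * (1 / 2 * (if z i = p then 1 else 0) +
    1 / 2 * (if conj (z i) = p then 1 else 0)) := ⟨_, rfl⟩
  have hg0 : ∀ i, 0 ≤ g i := by
    intro i
    rw [hg]
    have := C.m_nonneg i
    simp only
    split_ifs <;> simp <;> linarith
  have e : ∀ i, (m i : ℂ) * (-(1 / 2 * (if z i = p then 1 else 0)) -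
        1 / 2 * (if conj (z i) = p then 1 else 0)) = ((-g i : ℝ) : ℂ) := by
    intro i
    rw [hg]
    simp only
    split_ifs <;> push_cast <;> ring
  rw [tsum_congr e, ← Complex.ofReal_tsum, Complex.norm_real, Real.norm_eq_abs, tsum_neg, abs_neg,
    abs_of_nonneg (tsum_nonneg hg0)]
  have hs : Summable g := by
    have hfin : {i | |(z i).im| ≤ |p.im|}.Finite := by
      have h := C.sum_two.tendsto_cofinite_zero
      have h1 : ∀ᶠ i in cofinite, m i / (1 + |(z i).im|) ^ 2 < 1 / (1 + |p.im|) ^ 2 :=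
        h.eventually_lt_const (by positivity)
      rw [eventually_cofinite] at h1
      refine h1.subset fun i hi => ?_
      simp only [Set.mem_ofPred_eq, not_lt] at hi ⊢
      have h2 := C.one_le i
      calc 1 / (1 + |p.im|) ^ 2 ≤ 1 / (1 + |(z i).im|) ^ 2 := by
            apply one_div_le_one_div_of_le (by positivity)
            gcongr
        _ ≤ m i / (1 + |(z i).im|) ^ 2 := by gcongr
    apply summable_of_hasFiniteSupport
    refine hfin.subset fun i hi => ?_
    rw [Function.mem_support, hg] at hi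
    simp only [Set.mem_ofPred_eq]
    by_contra hcon
    apply hi
    have h1 : z i ≠ p := by
      intro h
      rw [h] at hcon
      exact hcon le_rfl
    have h2 : conj (z i) ≠ p := by
      intro h
      rw [← h] at hcon
      apply hcon
      simp
    simp [h1, h2]
  obtain ⟨i, hi⟩ := hp
  refine le_trans ?_ (hs.le_tsum i fun j _ => hg0 j)
  rw [hg]
  have := C.one_le i
  simp only
  rcases hi with h | h
  · rw [if_pos h]
    split_ifs <;> linarith
  · rw [if_pos h]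
    split_ifs <;> linarith

end Pool.Agent.V11271.LI
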