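import Pool.Agent.V11271.LI.Neg3

set_option autoImplicit false

/-!
# The inequality and the choice of the centre
-/

namespace Pool.Agent.V11271.LI

open Complex Filter Topology
open scoped ComplexConjugate

variable {ι : Type*} {z : ι → ℂ} {m : ι → ℝ}

lemma lam_zero (z : ι → ℂ) (m : ι → ℝ) (A : ℝ) : lam z m A 0 = 0 := by
  unfold lam
  simp

lemma Cfg.abs_lam (C : Cfg z m) {A : ℝ} (hA : 1 ≤ A) (n : ℕ) :
    |lam z m A n| ≤ 56 * A ^ 2 * (∑' i, m i / (1 + |(z i).im|) ^ 2) * (n ^ 2 * MA A ^ n) := by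
  have h := (C.sum_two).mul_left (56 * (n ^ 2 * A ^ 2 * MA A ^ n))
  have h2 : |lam z m A n| ≤ ∑' i, 56 * (n ^ 2 * A ^ 2 * MA A ^ n) * (m i / (1 + |(z i).im|) ^ 2) := by
    unfold lam
    rw [← Real.norm_eq_abs]
    refine tsum_of_norm_bounded h.hasSum fun i => ?_
    rw [Real.norm_eq_abs, abs_mul, abs_of_nonneg (C.m_nonneg i)]
    have h := re_one_sub_pow hA (C.re_le i) n
    calc m i * |(1 - W A (z i) ^ n).re| ≤
        m i * (56 * (n ^ 2 * A ^ 2 * MA A ^ n) / (1 + |(z i).im|) ^ 2) :=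
          mul_le_mul_of_nonneg_left h (C.m_nonneg i)
      _ = _ := by ring
  refine h2.trans (le_of_eq ?_)
  rw [tsum_mul_left]
  ring

/-- the comparison of the generating function at a point and at its modulus -/
lemma Cfg.compare (C : Cfg z m) {A : ℝ} (hA : 1 ≤ A) {zc x : ℂ} (hzc : zc.re < -1 / 2)
    (hx : x = (zc + A) / (zc - A)) {N ρ δ : ℝ} (hρ : 1 ≤ ρ) (hδ : 0 ≤ δ)
    (hρN : ∀ n : ℕ, N < n → 1 ≤ δ * ρ ^ n) (hr : ‖x‖ * ρ * MA A < 1)
    (hlam : ∀ n : ℕ, 1 ≤ n → (n : ℝ) ≤ N → 0 ≤ lam z m A n) (k : ℕ) {e : ℝ} (he0 : 0 < e) (he1 : e ≤ 1)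
    {R : ℝ} (hR : R = A * (1 + ‖x‖) / (1 - ‖x‖)) :
    ‖((1 - x) ^ (k + 1))⁻¹ * ∑' i, (m i : ℂ) * Q zc A (k + 1) (z i)‖ ≤
      ((1 - ‖x‖) ^ (k + 1))⁻¹ * (24 * (((k + 1 : ℕ) : ℝ) * R) ^ (1 + e) *
        ∑' i, m i / (1 + |(z i).im|) ^ (1 + e)) +
      2 * δ * (56 * A ^ 2 * (∑' i, m i / (1 + |(z i).im|) ^ 2) *
        (((k + 1) * (k + 2)) * ((1 - ‖x‖ * ρ * MA A) ^ (k + 3))⁻¹)) := by
  have hM1 := one_le_MA hA
  have hx0 : 0 ≤ ‖x‖ := norm_nonneg x
  have hr1 : ‖x‖ * MA A < 1 := by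
    refine lt_of_le_of_lt ?_ hr
    have : ‖x‖ * 1 * MA A ≤ ‖x‖ * ρ * MA A := by gcongr
    linarith
  have hx1 : ‖x‖ < 1 := lt_of_le_of_lt (le_mul_of_one_le_right (norm_nonneg _) hM1) hr1
  obtain ⟨r, hrdef⟩ : ∃ r : ℝ, r = ‖x‖ := ⟨_, rfl⟩
  rw [← hrdef] at hr hr1 hx1 hx0 hR ⊢
  have h1r : 0 < 1 - r := by linarith
  have hRA : A ≤ R := by
    rw [hR, le_div_iff₀ h1r]
    nlinarith
  have hR1 : 1 ≤ R := hA.trans hRA
  obtain ⟨B2, hB2⟩ : ∃ B2 : ℝ, B2 = ∑' i, m i / (1 + |(z i).im|) ^ 2 := ⟨_, rfl⟩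
  rw [← hB2]
  have hB20 : 0 ≤ B2 := by
    rw [hB2]
    exact tsum_nonneg fun i => div_nonneg (C.m_nonneg i) (by positivity)
  obtain ⟨_, hgx⟩ := C.gen hA hzc hx (by rw [← hrdef]; exact hr1) k
  -- the real point
  have hxr : ((r : ℝ) : ℂ) = ((-(R : ℂ)) + A) / ((-(R : ℂ)) - A) := by
    have e1 : R + A ≠ 0 := by linarith
    have e2 : ((R : ℂ) + A) ≠ 0 := by exact_mod_cast e1
    have e3 : r * (R + A) = R - A := by
      rw [hR]
      field_simp
      try ring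
    have e4 : (r : ℂ) * (R + A) = R - A := by exact_mod_cast e3
    rw [eq_div_iff (by intro h; apply e2; linear_combination -h)]
    linear_combination -e4
  have hnr : ‖((r : ℝ) : ℂ)‖ = r := by rw [Complex.norm_real, Real.norm_eq_abs, abs_of_nonneg hx0]
  obtain ⟨hsr, hgr⟩ := C.gen hA (zc := -(R : ℂ)) (x := (r : ℂ)) (by simp; linarith) hxr
    (by rw [hnr]; exact hr1) k
  have hgr1 : HasSum (fun n : ℕ => ((n + k).choose k : ℝ) * r ^ n * lam z m A n)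
      (((1 - r) ^ (k + 1))⁻¹ * ∑' i, m i * (1 - ((z i + A) / (z i + R)) ^ (k + 1)).re) := by
    rw [← Complex.hasSum_ofReal]
    convert! hgr using 1
    · funext n
      push_cast
      ring
    · push_cast
      congr 1
      refine tsum_congr fun i => ?_
      rw [Q_neg_real]
  have hsr1 : Summable fun i => m i * (1 - ((z i + A) / (z i + R)) ^ (k + 1)).re := by
    rw [← Complex.summable_ofReal]
    refine hsr.congr fun i => ?_
    rw [Q_neg_real]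
    push_cast
    ring
  have hBe := C.sum (1 + e) (by linarith)
  have hreal : ∑' i, m i * (1 - ((z i + A) / (z i + R)) ^ (k + 1)).re ≤
      24 * (((k + 1 : ℕ) : ℝ) * R) ^ (1 + e) * ∑' i, m i / (1 + |(z i).im|) ^ (1 + e) := by
    rw [← tsum_mul_left]
    refine hsr1.tsum_le_tsum (fun i => ?_) (hBe.mul_left _)
    have h := Q_real_le hA hRA (C.re_le i) (K := k + 1) (by omega) he0.le he1
    calc m i * (1 - ((z i + A) / (z i + R)) ^ (k + 1)).re ≤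
        m i * (24 * (((k + 1 : ℕ) : ℝ) * R / (1 + |(z i).im|)) ^ (1 + e)) :=
          mul_le_mul_of_nonneg_left h (C.m_nonneg i)
      _ = _ := by
        rw [Real.div_rpow (by positivity) (by positivity)]
        ring
  -- summability
  have hq0 : 0 ≤ r * ρ * MA A := by positivity
  obtain ⟨hs3, hs3'⟩ := hasSum_sq k hq0 hr
  have hbd : ∀ n : ℕ, ((n + k).choose k : ℝ) * r ^ n * |lam z m A n| ≤
      ((n + k).choose k : ℝ) * r ^ n * lam z m A n +
        2 * δ * (56 * A ^ 2 * B2 * ((n : ℝ) ^ 2 * ((n + k).choose k : ℝ) * (r * ρ * MA A) ^ n)) := by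
    intro n
    have hl := C.abs_lam hA n
    rw [← hB2] at hl
    have hpos : 0 ≤ ((n + k).choose k : ℝ) * r ^ n := by positivity
    rcases le_or_gt (n : ℝ) N with h | h
    · have h0 : 0 ≤ lam z m A n := by
        rcases Nat.eq_zero_or_pos n with h1 | h1
        · rw [h1, lam_zero]
        · exact hlam n h1 h
      rw [abs_of_nonneg h0]
      have : 0 ≤ 2 * δ * (56 * A ^ 2 * B2 * ((n : ℝ) ^ 2 * ((n + k).choose k : ℝ) * (r * ρ * MA A) ^ n)) := by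
        positivity
      linarith
    · have h1 := hρN n h
      have h2 : |lam z m A n| ≤ lam z m A n + 2 * |lam z m A n| := by
        have := neg_abs_le (lam z m A n)
        linarith
      have h3 : |lam z m A n| ≤ δ * ρ ^ n * (56 * A ^ 2 * B2 * (n ^ 2 * MA A ^ n)) := by
        calc |lam z m A n| ≤ 1 * (56 * A ^ 2 * B2 * (n ^ 2 * MA A ^ n)) := by linarith
          _ ≤ _ := by gcongr
      calc ((n + k).choose k : ℝ) * r ^ n * |lam z m A n| ≤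
          ((n + k).choose k : ℝ) * r ^ n * (lam z m A n + 2 * |lam z m A n|) := by gcongr
        _ ≤ ((n + k).choose k : ℝ) * r ^ n *
            (lam z m A n + 2 * (δ * ρ ^ n * (56 * A ^ 2 * B2 * (n ^ 2 * MA A ^ n)))) := by gcongr
        _ = _ := by
          rw [mul_pow, mul_pow]
          ring
  have hs4 : Summable fun n : ℕ => ((n + k).choose k : ℝ) * r ^ n * lam z m A n +
        2 * δ * (56 * A ^ 2 * B2 * ((n : ℝ) ^ 2 * ((n + k).choose k : ℝ) * (r * ρ * MA A) ^ n)) :=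
    hgr1.summable.add ((hs3.mul_left _).mul_left _)
  have hfin : ‖∑' n : ℕ, ((n + k).choose k : ℂ) * x ^ n * (lam z m A n : ℂ)‖ ≤
      ∑' n : ℕ, (((n + k).choose k : ℝ) * r ^ n * lam z m A n +
        2 * δ * (56 * A ^ 2 * B2 * ((n : ℝ) ^ 2 * ((n + k).choose k : ℝ) * (r * ρ * MA A) ^ n))) := by
    refine tsum_of_norm_bounded hs4.hasSum fun n => ?_
    rw [norm_mul, norm_mul, norm_pow, Complex.norm_natCast, Complex.norm_real, Real.norm_eq_abs, ← hrdef]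
    exact hbd n
  rw [hgx.tsum_eq, hgr1.summable.tsum_add ((hs3.mul_left _).mul_left _), hgr1.tsum_eq, tsum_mul_left,
    tsum_mul_left] at hfin
  refine hfin.trans ?_
  gcongr

/-- the choice of the centre -/
lemma Cfg.choice (C : Cfg z m) (i0 : ι) {B : ℝ} (hB : 1 ≤ B) :
    ∃ zc p : ℂ, zc.re ≤ -B ∧ p ≠ zc ∧ (∃ i, z i = p ∨ conj (z i) = p) ∧
      (∀ i, z i ≠ p → ‖p - zc‖ < ‖z i - zc‖) ∧ (∀ i, conj (z i) ≠ p → ‖p - zc‖ < ‖conj (z i) - zc‖) ∧
      ‖p - zc‖ ≤ -zc.re - |(z i0).re| := by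
  -- a point on the left
  obtain ⟨i1, hi1⟩ : ∃ i1, (z i1).re = -|(z i0).re| := by
    rcases le_or_gt (z i0).re 0 with h | h
    · exact ⟨i0, by rw [abs_of_nonpos h]; ring⟩
    · obtain ⟨σ, h1, _⟩ := C.symm
      refine ⟨σ i0, ?_⟩
      rw [h1, abs_of_pos h]
      simp
  obtain ⟨h1, hh1⟩ : ∃ h1 : ℝ, h1 = |(z i0).re| := ⟨_, rfl⟩
  rw [← hh1] at hi1 ⊢
  have hh10 : 0 ≤ h1 := by rw [hh1]; exact abs_nonneg _
  have hh11 : h1 ≤ 1 / 2 := by rw [hh1]; exact C.re_le i0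
  obtain ⟨B', hB'⟩ : ∃ B' : ℝ, B' = B + 1 := ⟨_, rfl⟩
  obtain ⟨z0, hz0⟩ : ∃ z0 : ℂ, z0 = ⟨-2 * B', (z i1).im⟩ := ⟨_, rfl⟩
  obtain ⟨Y, hY⟩ : ∃ Y : Set ℂ, Y = {y | ∃ i, z i = y ∨ conj (z i) = y} := ⟨_, rfl⟩
  have hYre : ∀ y ∈ Y, |y.re| ≤ 1 / 2 := by
    intro y hy
    rw [hY] at hy
    obtain ⟨i, h | h⟩ := hy
    · rw [← h]; exact C.re_le i
    · rw [← h]; exact conj_re_le (C.re_le i)
  have hd1 : ‖z i1 - z0‖ = 2 * B' - h1 := by
    have : z i1 - z0 = ((2 * B' - h1 : ℝ) : ℂ) := by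
      apply Complex.ext
      · simp [hz0, hi1]; ring
      · simp [hz0]
    rw [this, Complex.norm_real, Real.norm_eq_abs, abs_of_nonneg (by linarith)]
  -- the finite set
  obtain ⟨G, hG⟩ : ∃ G : ℝ, G = 2 * B' + ‖z0‖ := ⟨_, rfl⟩
  have hfin : (Y ∩ {y | ‖y - z0‖ ≤ 2 * B' - h1}).Finite := by
    have hf : {i | |(z i).im| ≤ G}.Finite := by
      have h := C.sum_two.tendsto_cofinite_zero
      have h1 : ∀ᶠ i in cofinite, m i / (1 + |(z i).im|) ^ 2 < 1 / (1 + |G|) ^ 2 :=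
        h.eventually_lt_const (by positivity)
      rw [eventually_cofinite] at h1
      refine h1.subset fun i hi => ?_
      simp only [Set.mem_ofPred_eq, not_lt] at hi ⊢
      have h2 := C.one_le i
      calc 1 / (1 + |G|) ^ 2 ≤ 1 / (1 + |(z i).im|) ^ 2 := by
            apply one_div_le_one_div_of_le (by positivity)
            have h9 : |(z i).im| ≤ |G| := hi.trans (le_abs_self G)
            have h10 : 0 ≤ |(z i).im| := abs_nonneg _
            nlinarith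
        _ ≤ m i / (1 + |(z i).im|) ^ 2 := by gcongr
    refine ((hf.image z).union (hf.image fun i => conj (z i))).subset ?_
    rintro y ⟨hy, hy2⟩
    simp only [Set.mem_ofPred_eq] at hy2
    have him : |y.im| ≤ G := by
      have h3 := abs_im_le_norm y
      have h4 := norm_sub_norm_le y z0
      rw [hG]
      linarith
    rw [hY] at hy
    obtain ⟨i, h | h⟩ := hy
    · left
      exact ⟨i, by simp only [Set.mem_ofPred_eq]; rw [h]; exact him, h⟩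
    · right
      refine ⟨i, ?_, h⟩
      simp only [Set.mem_ofPred_eq]
      rw [← h] at him
      simpa using him
  have hne : (Y ∩ {y | ‖y - z0‖ ≤ 2 * B' - h1}).Nonempty :=
    ⟨z i1, by rw [hY]; exact ⟨i1, Or.inl rfl⟩, hd1.le⟩
  obtain ⟨p, ⟨hpY, hp2⟩, hmin⟩ := Set.exists_min_image _ (fun y => ‖y - z0‖) hfin hne
  simp only [Set.mem_ofPred_eq] at hp2
  have hmin' : ∀ y ∈ Y, ‖p - z0‖ ≤ ‖y - z0‖ := by
    intro y hy
    rcases le_or_gt ‖y - z0‖ (2 * B' - h1) with h | h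
    · exact hmin y ⟨hy, h⟩
    · linarith
  have hpre := abs_le.mp (hYre p hpY)
  obtain ⟨zc, hzc⟩ : ∃ zc : ℂ, zc = (z0 + p) / 2 := ⟨_, rfl⟩
  have hzcre : zc.re = (-2 * B' + p.re) / 2 := by rw [hzc, hz0]; simp
  have hpz : p - zc = (p - z0) / 2 := by rw [hzc]; ring
  have hpzn : ‖p - zc‖ = ‖p - z0‖ / 2 := by rw [hpz, norm_div]; simp
  have hnear : ∀ y ∈ Y, y ≠ p → ‖p - zc‖ < ‖y - zc‖ := by
    intro y hy hyp
    have h3 := hmin' y hy
    have h4 : 0 < ‖y - p‖ := norm_pos_iff.mpr (sub_ne_zero.mpr hyp)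
    have key : ‖y - zc‖ ^ 2 = ‖p - zc‖ ^ 2 + 1 / 2 * (‖y - z0‖ ^ 2 - ‖p - z0‖ ^ 2) + 1 / 2 * ‖y - p‖ ^ 2 := by
      rw [hzc]
      simp only [← Complex.normSq_eq_norm_sq, Complex.normSq_apply]
      simp
      ring
    have h5 : ‖p - z0‖ ^ 2 ≤ ‖y - z0‖ ^ 2 := by gcongr
    have h6 : 0 < ‖y - p‖ ^ 2 := by positivity
    have h7 : ‖p - zc‖ ^ 2 < ‖y - zc‖ ^ 2 := by linarith
    exact lt_of_pow_lt_pow_left₀ 2 (norm_nonneg _) h7
  refine ⟨zc, p, ?_, ?_, ?_, ?_, ?_, ?_⟩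
  · rw [hzcre]; linarith [hpre.2]
  · intro h
    have h3 : p.re = zc.re := by rw [h]
    rw [hzcre] at h3
    linarith [hpre.1]
  · rw [hY] at hpY; exact hpY
  · intro i hi
    exact hnear _ (by rw [hY]; exact ⟨i, Or.inl rfl⟩) hi
  · intro i hi
    exact hnear _ (by rw [hY]; exact ⟨i, Or.inr rfl⟩) hi
  · rw [hpzn, hzcre]
    have h3 : p.re + 2 * B' ≤ ‖p - z0‖ := by
      have h4 := Complex.re_le_norm (p - z0)
      have h5 : (p - z0).re = p.re + 2 * B' := by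
        rw [hz0]
        simp
      linarith
    linarith

end Pool.Agent.V11271.LI
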