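import Pool.Agent.V11271.LI.Cfg

set_option autoImplicit false

/-!
# Positivity of the Li coefficients in a range
-/

namespace Pool.Agent.V11271.LI

open Complex Filter Topology
open scoped ComplexConjugate

variable {ι : Type*} {z : ι → ℂ} {m : ι → ℝ}

lemma Cfg.finite (C : Cfg z m) (Y : ℝ) : {i | |(z i).im| ≤ Y}.Finite := by
  have h := C.sum_two.tendsto_cofinite_zero
  have h1 : ∀ᶠ i in cofinite, m i / (1 + |(z i).im|) ^ 2 < 1 / (1 + |Y|) ^ 2 :=
    h.eventually_lt_const (by positivity)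
  rw [eventually_cofinite] at h1
  refine h1.subset fun i hi => ?_
  simp only [Set.mem_ofPred_eq, not_lt] at hi ⊢
  have h2 := C.one_le i
  have h3 : |(z i).im| ≤ |Y| := hi.trans (le_abs_self Y)
  calc 1 / (1 + |Y|) ^ 2 ≤ 1 / (1 + |(z i).im|) ^ 2 := by
        apply one_div_le_one_div_of_le (by positivity)
        gcongr
    _ ≤ m i / (1 + |(z i).im|) ^ 2 := by gcongr

lemma W_ne {A : ℝ} (hA : 1 ≤ A) {z : ℂ} (hz : |z.re| ≤ 1 / 2) : W A z ≠ 0 := by
  unfold W
  exact div_ne_zero (sub_ne hA hz) (add_ne hA hz)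

lemma W_symm {A : ℝ} (hA : 1 ≤ A) {z : ℂ} (hz : |z.re| ≤ 1 / 2) :
    W A (-conj z) = ((‖W A z‖ ^ 2 : ℝ) : ℂ)⁻¹ * W A z := by
  have h1 := add_ne hA hz
  have h2 := sub_ne hA hz
  have hw := W_ne hA hz
  have e1 : ((‖W A z‖ ^ 2 : ℝ) : ℂ) = W A z * conj (W A z) := by
    rw [Complex.mul_conj, Complex.normSq_eq_norm_sq]
  rw [e1, mul_inv, mul_comm (W A z)⁻¹, mul_assoc, inv_mul_cancel₀ hw, mul_one]
  unfold W
  rw [map_div₀, map_sub, map_add, Complex.conj_ofReal, inv_div]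
  have h3 : conj z - A ≠ 0 := by
    have := (map_ne_zero (starRingEnd ℂ)).mpr h2
    rwa [map_sub, Complex.conj_ofReal] at this
  have h4 : -conj z + A ≠ 0 := by
    intro h
    apply h3
    linear_combination -h
  rw [div_eq_div_iff h4 h3]
  ring

/-- the angle -/
noncomputable def cs (A : ℝ) (z : ℂ) (n : ℕ) : ℝ := Real.cos (n * (W A z).arg)

/-- the size -/
noncomputable def xx (A : ℝ) (z : ℂ) (n : ℕ) : ℝ := n * Real.log ‖W A z‖

lemma pow_re (w : ℂ) (n : ℕ) : (w ^ n).re = ‖w‖ ^ n * Real.cos (n * w.arg) := by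
  have e : w ^ n = ((‖w‖ ^ n : ℝ) : ℂ) * cexp (((n * w.arg : ℝ) : ℂ) * I) := by
    conv_lhs => rw [← Complex.norm_mul_exp_arg_mul_I w]
    rw [mul_pow, ← Complex.exp_nat_mul]
    push_cast
    ring_nf
  rw [e, Complex.re_ofReal_mul, Complex.exp_ofReal_mul_I_re]

lemma pair_eq {A : ℝ} (hA : 1 ≤ A) {z : ℂ} (hz : |z.re| ≤ 1 / 2) (n : ℕ) :
    (1 - W A z ^ n).re + (1 - W A (-conj z) ^ n).re = 2 * (1 - Real.cosh (xx A z n) * cs A z n) := by
  have hw := W_ne hA hz
  have hR : 0 < ‖W A z‖ := norm_pos_iff.mpr hw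
  rw [W_symm hA hz, mul_pow]
  have e1 : (((‖W A z‖ ^ 2 : ℝ) : ℂ)⁻¹) ^ n = (((‖W A z‖ ^ n)⁻¹ * (‖W A z‖ ^ n)⁻¹ : ℝ) : ℂ) := by
    push_cast
    rw [← mul_inv, ← pow_add, inv_pow, ← pow_mul]
    ring_nf
  rw [e1, sub_re, sub_re, Complex.re_ofReal_mul, pow_re, one_re]
  have e2 : Real.cosh (xx A z n) = (‖W A z‖ ^ n + (‖W A z‖ ^ n)⁻¹) / 2 := by
    unfold xx
    rw [Real.cosh_eq, Real.exp_neg, mul_comm, Real.exp_mul, Real.exp_log hR, Real.rpow_natCast]
  rw [e2]
  unfold cs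
  have h3 : ‖W A z‖ ^ n ≠ 0 := by positivity
  field_simp
  ring

lemma pair_low {A : ℝ} (hA : 1 ≤ A) {z : ℂ} (hz : |z.re| ≤ 1 / 2) (n : ℕ) :
    (1 - cs A z n) - (Real.cosh (xx A z n) - 1) ≤
      ((1 - W A z ^ n).re + (1 - W A (-conj z) ^ n).re) / 2 := by
  rw [pair_eq hA hz]
  have h1 : cs A z n ≤ 1 := Real.cos_le_one _
  have h2 := Real.one_le_cosh (xx A z n)
  nlinarith

/-- the coefficients, symmetrised -/
lemma Cfg.lam_eq (C : Cfg z m) {A : ℝ} (hA : 1 ≤ A) (n : ℕ) :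
    HasSum (fun i => m i * (((1 - W A (z i) ^ n).re + (1 - W A (-conj (z i)) ^ n).re) / 2)) (lam z m A n) := by
  obtain ⟨σ, h1, h2⟩ := C.symm
  have h3 := (C.summable_lam hA n).hasSum
  have h4 : HasSum (fun i => m i * (1 - W A (-conj (z i)) ^ n).re) (lam z m A n) := by
    have h5 := (Equiv.hasSum_iff σ).mpr h3
    have e : ((fun i => m i * (1 - W A (z i) ^ n).re) ∘ σ) =
        fun i => m i * (1 - W A (-conj (z i)) ^ n).re := by
      funext i
      simp only [Function.comp, h1, h2]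
    rwa [e] at h5
  have h6 := (h3.add h4).mul_left (1 / 2)
  have e : 1 / 2 * ((∑' i, m i * (1 - W A (z i) ^ n).re) + lam z m A n) = lam z m A n := by
    unfold lam
    ring
  rw [e] at h6
  have e2 : (fun i => m i * (((1 - W A (z i) ^ n).re + (1 - W A (-conj (z i)) ^ n).re) / 2)) =
      fun i => 1 / 2 * (m i * (1 - W A (z i) ^ n).re + m i * (1 - W A (-conj (z i)) ^ n).re) := by
    funext i
    ring
  rw [e2]
  exact h6

/-- distance bound for the logarithm -/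
lemma log_W {A : ℝ} (hA : 1 ≤ A) {z : ℂ} (hz : |z.re| ≤ 1 / 2) :
    |Real.log ‖W A z‖| ≤ 2 * A * |z.re| / ((A - 1 / 2) ^ 2 + z.im ^ 2) := by
  have hw := W_ne hA hz
  have hz' := abs_le.mp hz
  set D := (A - 1 / 2) ^ 2 + z.im ^ 2 with hD
  have hD0 : 0 < D := by
    have : 0 < (A - 1 / 2) ^ 2 := by
      have : 0 < A - 1 / 2 := by linarith
      positivity
    have h2 := sq_nonneg z.im
    linarith
  set N1 := (A - z.re) ^ 2 + z.im ^ 2 with hN1
  set N2 := (A + z.re) ^ 2 + z.im ^ 2 with hN2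
  have h1 : D ≤ N1 := by rw [hD, hN1]; nlinarith [hz'.1, hz'.2]
  have h2 : D ≤ N2 := by rw [hD, hN2]; nlinarith [hz'.1, hz'.2]
  have hN10 : 0 < N1 := by linarith
  have hN20 : 0 < N2 := by linarith
  have e1 : ‖z - A‖ ^ 2 = N1 := by
    rw [← Complex.normSq_eq_norm_sq, Complex.normSq_apply, hN1]
    simp
    ring
  have e2 : ‖z + A‖ ^ 2 = N2 := by
    rw [← Complex.normSq_eq_norm_sq, Complex.normSq_apply, hN2]
    simp
    ring
  have e3 : 2 * Real.log ‖W A z‖ = Real.log N1 - Real.log N2 := by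
    unfold W
    rw [norm_div, Real.log_div (norm_ne_zero_iff.mpr (sub_ne hA hz)) (norm_ne_zero_iff.mpr (add_ne hA hz)),
      ← e1, ← e2, Real.log_pow, Real.log_pow]
    push_cast
    ring
  -- log N1 - log N2 bounds
  have key : ∀ x y : ℝ, D ≤ x → D ≤ y → |x - y| ≤ 4 * A * |z.re| → Real.log x - Real.log y ≤ 4 * A * |z.re| / D := by
    intro x y hx hy hxy
    have hx0 : 0 < x := by linarith
    have hy0 : 0 < y := by linarith
    rw [← Real.log_div hx0.ne' hy0.ne']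
    have h3 := Real.log_le_sub_one_of_pos (show 0 < x / y by positivity)
    refine h3.trans ?_
    have e : x / y - 1 = (x - y) / y := by field_simp
    rw [e]
    have h4 : x - y ≤ 4 * A * |z.re| := (le_abs_self _).trans hxy
    calc (x - y) / y ≤ 4 * A * |z.re| / y := by gcongr
      _ ≤ 4 * A * |z.re| / D := by
        have : 0 ≤ 4 * A * |z.re| := by positivity
        gcongr
  have hdiff : |N1 - N2| = 4 * A * |z.re| := by
    have : N1 - N2 = -(4 * A * z.re) := by rw [hN1, hN2]; ring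
    rw [this, abs_neg, abs_mul, abs_of_nonneg (by linarith : (0:ℝ) ≤ 4 * A)]
  have k1 := key N1 N2 h1 h2 hdiff.le
  have k2 := key N2 N1 h2 h1 (by rw [abs_sub_comm]; exact hdiff.le)
  have e4 : 4 * A * |z.re| / D = 2 * (2 * A * |z.re| / D) := by ring
  rw [e4] at k1 k2
  rw [abs_le]
  constructor <;> linarith

/-- the bound in the near region -/
lemma cosh_near {x : ℝ} (hx : |x| ≤ 1) : Real.cosh x - 1 ≤ |x| ^ (3 / 4 : ℝ) := by
  have h1 := Real.cosh_le_exp_half_sq x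
  have h2 : x ^ 2 ≤ 1 := by
    rw [← sq_abs]
    exact pow_le_one₀ (abs_nonneg _) hx
  have h3 : Real.exp (x ^ 2 / 2) ≤ 1 + x ^ 2 := by
    have h4 := Real.abs_exp_sub_one_le (x := x ^ 2 / 2) (by rw [abs_of_nonneg (by positivity)]; linarith)
    rw [abs_of_nonneg (show 0 ≤ x ^ 2 / 2 by positivity)] at h4
    linarith [(abs_le.mp h4).2]
  have h4 : x ^ 2 ≤ |x| ^ (3 / 4 : ℝ) := by
    rw [← sq_abs, ← Real.rpow_two]
    rcases eq_or_lt_of_le (abs_nonneg x) with h | h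
    · rw [← h, Real.zero_rpow (by norm_num), Real.zero_rpow (by norm_num)]
    · exact Real.rpow_le_rpow_of_exponent_ge h hx (by norm_num)
  linarith

lemma cosh_le_exp_abs (x : ℝ) : Real.cosh x ≤ Real.exp |x| := by
  rw [← Real.cosh_abs, Real.cosh_eq]
  have : Real.exp (-|x|) ≤ Real.exp |x| := Real.exp_le_exp.mpr (by linarith [abs_nonneg x])
  linarith

lemma D_low {A : ℝ} (hA : 1 ≤ A) (y : ℝ) : (1 + |y|) ^ 2 / 8 ≤ (A - 1 / 2) ^ 2 + y ^ 2 := by
  have h1 := sq_abs y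
  have h2 : 0 ≤ |y| := abs_nonneg _
  nlinarith [sq_nonneg (|y| - 1)]

lemma xx_le {A : ℝ} (hA : 1 ≤ A) {z : ℂ} (hz : |z.re| ≤ 1 / 2) (n : ℕ) :
    |xx A z n| ≤ 2 * n * A * |z.re| / ((A - 1 / 2) ^ 2 + z.im ^ 2) := by
  unfold xx
  rw [abs_mul, abs_of_nonneg (Nat.cast_nonneg n : (0:ℝ) ≤ n)]
  have h := log_W hA hz
  calc (n : ℝ) * |Real.log ‖W A z‖| ≤ n * (2 * A * |z.re| / ((A - 1 / 2) ^ 2 + z.im ^ 2)) := by gcongr
    _ = _ := by ring

lemma near_bound {A : ℝ} (hA : 1 ≤ A) {z : ℂ} (hz : |z.re| ≤ 1 / 2) {n : ℕ} (hx : |xx A z n| ≤ 1) :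
    Real.cosh (xx A z n) - 1 ≤ (8 * (n * A)) ^ (3 / 4 : ℝ) / (1 + |z.im|) ^ (3 / 2 : ℝ) := by
  refine (cosh_near hx).trans ?_
  have hn0 : (0 : ℝ) ≤ n := Nat.cast_nonneg n
  have hg : 0 < 1 + |z.im| := by positivity
  have h1 : |xx A z n| ≤ 8 * (n * A) / (1 + |z.im|) ^ 2 := by
    refine (xx_le hA hz n).trans ?_
    have hD := D_low hA z.im
    have hD0 : 0 < (A - 1 / 2) ^ 2 + z.im ^ 2 := lt_of_lt_of_le (by positivity) hD
    rw [div_le_div_iff₀ hD0 (by positivity)]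
    calc 2 * n * A * |z.re| * (1 + |z.im|) ^ 2 ≤ 2 * n * A * (1 / 2) * (1 + |z.im|) ^ 2 := by gcongr
      _ = 8 * (n * A) * ((1 + |z.im|) ^ 2 / 8) := by ring
      _ ≤ _ := by gcongr
  calc |xx A z n| ^ (3 / 4 : ℝ) ≤ (8 * (n * A) / (1 + |z.im|) ^ 2) ^ (3 / 4 : ℝ) :=
        Real.rpow_le_rpow (abs_nonneg _) h1 (by norm_num)
    _ = (8 * (n * A)) ^ (3 / 4 : ℝ) / ((1 + |z.im|) ^ 2) ^ (3 / 4 : ℝ) :=
        Real.div_rpow (by positivity) (by positivity) _
    _ = _ := by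
      rw [← Real.rpow_natCast, ← Real.rpow_mul hg.le]
      norm_num

/-- the main term -/
lemma main_low {A : ℝ} (hA : 2 ≤ A) {z : ℂ} (hz : |z.re| ≤ 1 / 2) {n : ℕ} (hn : 1 ≤ n)
    (h1 : n * A ≤ |z.im|) (h2 : |z.im| ≤ 2 * (n * A)) : 1 / 30 ≤ 1 - cs A z n := by
  have hA1 : (1 : ℝ) ≤ A := by linarith
  have hn1 : (1 : ℝ) ≤ n := by exact_mod_cast hn
  have hne1 := add_ne hA1 hz
  have hne2 := sub_ne hA1 hz
  have hw0 := W_ne hA1 hz
  obtain ⟨g, hgdef⟩ : ∃ g : ℝ, g = |z.im| := ⟨_, rfl⟩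
  rw [← hgdef] at h1 h2
  have hg : 2 ≤ g := by nlinarith
  have hgA : A ≤ g := by nlinarith
  have hg2 : z.im ^ 2 = g ^ 2 := by rw [hgdef, sq_abs]
  have hz2 : z.re ^ 2 ≤ 1 / 4 := by
    rw [← sq_abs]
    nlinarith [abs_nonneg z.re]
  obtain ⟨P, hP⟩ : ∃ P : ℝ, P = ‖z - A‖ * ‖z + A‖ := ⟨_, rfl⟩
  have hs1 : g ≤ ‖z - A‖ := by
    have := abs_im_le_norm (z - A)
    rw [hgdef]
    simpa using this
  have hs2 : g ≤ ‖z + A‖ := by
    have := abs_im_le_norm (z + A)
    rw [hgdef]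
    simpa using this
  have hPlow : g ^ 2 ≤ P := by
    rw [hP, sq]
    exact mul_le_mul hs1 hs2 (by linarith) (norm_nonneg _)
  have hPup : P ≤ g ^ 2 + A ^ 2 + 1 / 4 := by
    have e1 : ‖z - A‖ ^ 2 = (z.re - A) ^ 2 + z.im ^ 2 := by
      rw [← Complex.normSq_eq_norm_sq, Complex.normSq_apply]
      simp
      ring
    have e2 : ‖z + A‖ ^ 2 = (z.re + A) ^ 2 + z.im ^ 2 := by
      rw [← Complex.normSq_eq_norm_sq, Complex.normSq_apply]
      simp
      ring
    have e3 : P ≤ (‖z - A‖ ^ 2 + ‖z + A‖ ^ 2) / 2 := by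
      rw [hP]
      nlinarith [sq_nonneg (‖z - A‖ - ‖z + A‖)]
    rw [e1, e2, hg2] at e3
    nlinarith
  have hP0 : 0 < P := by nlinarith
  -- real and imaginary parts
  have e1 : ((‖z + A‖ ^ 2 : ℝ) : ℂ) = (z + A) * conj (z + A) := by
    rw [Complex.mul_conj, Complex.normSq_eq_norm_sq]
  have hwe : W A z = (((‖z + A‖ ^ 2)⁻¹ : ℝ) : ℂ) * ((z - A) * conj (z + A)) := by
    rw [Complex.ofReal_inv, e1]
    unfold W
    have h3 : conj (z + A) ≠ 0 := (map_ne_zero _).mpr hne1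
    field_simp
  have hre : (W A z).re = (‖z + A‖ ^ 2)⁻¹ * (z.re ^ 2 + z.im ^ 2 - A ^ 2) := by
    rw [hwe, Complex.re_ofReal_mul]
    congr 1
    simp
    ring
  have him : (W A z).im = (‖z + A‖ ^ 2)⁻¹ * (2 * A * z.im) := by
    rw [hwe, Complex.im_ofReal_mul]
    congr 1
    simp
    ring
  have hre0 : 0 ≤ (W A z).re := by
    rw [hre]
    apply mul_nonneg (by positivity)
    rw [hg2]
    nlinarith [sq_nonneg z.re]
  obtain ⟨θ, hθ⟩ : ∃ θ : ℝ, θ = |(W A z).arg| := ⟨_, rfl⟩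
  have hθ0 : 0 ≤ θ := by rw [hθ]; exact abs_nonneg _
  have hθ1 : θ ≤ Real.pi / 2 := by
    rw [hθ]
    exact Complex.abs_arg_le_pi_div_two_iff.mpr hre0
  have hsin : Real.sin θ = 2 * A * g / P := by
    have h3 : |Real.sin (W A z).arg| = Real.sin θ := by
      rw [hθ, Real.abs_sin_eq_sin_abs_of_abs_le_pi]
      exact Complex.abs_arg_le_pi _
    rw [← h3, Complex.sin_arg, abs_div, abs_norm, him, abs_mul, abs_mul, abs_of_nonneg (by positivity),
      abs_of_nonneg (by linarith : (0:ℝ) ≤ 2 * A), ← hgdef]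
    unfold W
    rw [norm_div, hP]
    have h4 : ‖z + A‖ ≠ 0 := norm_ne_zero_iff.mpr hne1
    have h5 : ‖z - A‖ ≠ 0 := norm_ne_zero_iff.mpr hne2
    field_simp
  have hup : n * θ ≤ Real.pi := by
    have h3 := Real.mul_le_sin hθ0 hθ1
    rw [hsin] at h3
    have hpi := Real.pi_pos
    have h4 : θ ≤ Real.pi / 2 * (2 * A * g / P) := by
      have h5 : 2 / Real.pi * θ * (Real.pi / 2) = θ := by field_simp
      have h6 := mul_le_mul_of_nonneg_right h3 (show 0 ≤ Real.pi / 2 by positivity)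
      rw [h5] at h6
      linarith
    have h5 : 2 * A * g / P ≤ 2 * A / g := by
      rw [div_le_div_iff₀ hP0 (by linarith)]
      nlinarith
    have h6 : (n : ℝ) * (2 * A / g) ≤ 2 := by
      rw [mul_div_assoc', div_le_iff₀ (by linarith)]
      nlinarith
    calc n * θ ≤ n * (Real.pi / 2 * (2 * A / g)) := by
          apply mul_le_mul_of_nonneg_left _ (by linarith)
          refine h4.trans ?_
          gcongr
      _ = Real.pi / 2 * (n * (2 * A / g)) := by ring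
      _ ≤ Real.pi / 2 * 2 := by gcongr
      _ = Real.pi := by ring
  have hlo : 12 / 25 ≤ n * θ := by
    have h3 : 2 * A * g / P ≤ θ := by
      rw [← hsin]
      exact Real.sin_le hθ0
    have h4 : 12 / 25 ≤ n * (2 * A * g / P) := by
      rw [mul_div_assoc', le_div_iff₀ hP0]
      have h5 : P ≤ 33 / 16 * g ^ 2 := by nlinarith
      nlinarith
    calc (12 / 25 : ℝ) ≤ n * (2 * A * g / P) := h4
      _ ≤ n * θ := by gcongr
  have hcs : cs A z n = Real.cos (n * θ) := by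
    unfold cs
    rw [hθ, ← Real.cos_abs (n * (W A z).arg), abs_mul, abs_of_nonneg (Nat.cast_nonneg n : (0:ℝ) ≤ n)]
  rw [hcs]
  have h3 := Real.cos_le_one_sub_mul_cos_sq (x := n * θ) (by rw [abs_of_nonneg (by linarith)]; exact hup)
  have hpi : Real.pi ^ 2 ≤ 10 := by
    have h4 := Real.pi_lt_d2
    have h5 := Real.pi_pos
    nlinarith
  have h4 : 2 / 10 ≤ 2 / Real.pi ^ 2 := by
    apply div_le_div_of_nonneg_left (by norm_num) (by positivity) hpi
  have h5 : (12 / 25 : ℝ) ^ 2 ≤ (n * θ) ^ 2 := by gcongr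
  have h6 : 2 / 10 * (12 / 25 : ℝ) ^ 2 ≤ 2 / Real.pi ^ 2 * (n * θ) ^ 2 := by gcongr
  linarith

/-- lower bound on the number of points in dyadic windows -/
def LB (z : ι → ℂ) (m : ι → ℝ) : Prop :=
  ∃ c : ℝ, 0 < c ∧ ∃ T0 : ℝ, ∀ T : ℝ, T0 ≤ T → ∃ S : Finset ι,
    (∀ i ∈ S, T ≤ |(z i).im| ∧ |(z i).im| ≤ 2 * T) ∧ c * T ≤ ∑ i ∈ S, m i

/-- the density condition -/
def Adm (z : ι → ℂ) (m : ι → ℝ) (κ : ℝ) : Prop :=
  ∃ η : ℝ, 0 < η ∧ ∃ D : ℝ, ∀ A : ℝ, 1 ≤ A → ∀ S : Finset ι, (∀ i ∈ S, |(z i).im| ≤ A ^ (1 + η)) →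
    ∑ i ∈ S, m i * A ^ (2 * κ * |(z i).re|) ≤ D * A ^ (2 - η)

lemma xx_le_one_of {A : ℝ} (hA : 1 ≤ A) {z : ℂ} (hz : |z.re| ≤ 1 / 2) {n : ℕ}
    (h : n * A ≤ (A - 1 / 2) ^ 2 + z.im ^ 2) : |xx A z n| ≤ 1 := by
  refine (xx_le hA hz n).trans ?_
  have hD := D_low hA z.im
  have hD0 : 0 < (A - 1 / 2) ^ 2 + z.im ^ 2 := lt_of_lt_of_le (by positivity) hD
  rw [div_le_one hD0]
  have hn0 : (0 : ℝ) ≤ n := Nat.cast_nonneg n
  calc 2 * n * A * |z.re| ≤ 2 * n * A * (1 / 2) := by gcongr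
    _ = n * A := by ring
    _ ≤ _ := h

/-- the positivity theorem -/
theorem Cfg.pos (C : Cfg z m) (hLB : LB z m) {κ : ℝ} (hκ : 0 < κ) (hAdm : Adm z m κ) :
    ∃ c : ℝ, 0 < c ∧ ∃ A0 : ℝ, 2 ≤ A0 ∧ ∀ A : ℝ, A0 ≤ A → ∀ n : ℕ, 1 ≤ n → n ≤ κ * A * Real.log A →
      c * (n * A) ≤ lam z m A n := by
  obtain ⟨c, hc, T0, hT0⟩ := hLB
  obtain ⟨η, hη, D, hD⟩ := hAdm
  have hD0 : 0 ≤ D := by
    have := hD 1 le_rfl ∅ (by simp)
    simpa using this
  obtain ⟨B0, hB0⟩ : ∃ B0 : ℝ, B0 = ∑' i, m i / (1 + |(z i).im|) ^ (3 / 2 : ℝ) := ⟨_, rfl⟩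
  have hsum := C.sum (3 / 2) (by norm_num)
  have hB00 : 0 ≤ B0 := by
    rw [hB0]
    exact tsum_nonneg fun i => div_nonneg (C.m_nonneg i) (by positivity)
  have ev1 : ∀ᶠ A : ℝ in atTop, 2 ≤ A := eventually_ge_atTop 2
  have ev2 : ∀ᶠ A : ℝ in atTop, T0 ≤ A := eventually_ge_atTop T0
  have ev3 : ∀ᶠ A : ℝ in atTop, κ * Real.log A ≤ A ^ (2 * η) := by
    have h := (isLittleO_log_rpow_atTop (show 0 < 2 * η by linarith)).bound (show 0 < κ⁻¹ by positivity)
    filter_upwards [h, eventually_ge_atTop 1] with A h1 h2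
    rw [Real.norm_eq_abs, Real.norm_eq_abs, abs_of_nonneg (Real.log_nonneg h2),
      abs_of_nonneg (Real.rpow_nonneg (by linarith) _)] at h1
    calc κ * Real.log A ≤ κ * (κ⁻¹ * A ^ (2 * η)) := by gcongr
      _ = A ^ (2 * η) := by field_simp
  have ev4 : ∀ᶠ A : ℝ in atTop, 4 * κ * Real.log A ≤ A := by
    have h := Real.isLittleO_log_id_atTop.bound (show 0 < (4 * κ)⁻¹ by positivity)
    filter_upwards [h, eventually_ge_atTop 1] with A h1 h2
    rw [Real.norm_eq_abs, Real.norm_eq_abs, abs_of_nonneg (Real.log_nonneg h2), id,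
      abs_of_nonneg (by linarith)] at h1
    calc 4 * κ * Real.log A ≤ 4 * κ * ((4 * κ)⁻¹ * A) := by gcongr
      _ = A := by field_simp
  have ev5 : ∀ᶠ A : ℝ in atTop, Real.exp 1 * D * 4 * A ^ (-η) ≤ c / 120 := by
    have h := (tendsto_rpow_neg_atTop hη).const_mul (Real.exp 1 * D * 4)
    rw [mul_zero] at h
    exact h.eventually_le_const (by positivity)
  have ev6 : ∀ᶠ A : ℝ in atTop, (8 : ℝ) ^ (3 / 4 : ℝ) * B0 ≤ c / 120 * A ^ (1 / 4 : ℝ) := by
    have h := (tendsto_rpow_atTop (show (0 : ℝ) < 1 / 4 by norm_num)).const_mul_atTop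
      (show 0 < c / 120 by positivity)
    exact h.eventually_ge_atTop _
  obtain ⟨A0, hA0⟩ := eventually_atTop.mp
    (((((ev1.and ev2).and ev3).and ev4).and ev5).and ev6)
  refine ⟨c / 60, by positivity, max A0 2, le_max_right _ _, fun A hA n hn hnA => ?_⟩
  obtain ⟨⟨⟨⟨⟨a1, a2⟩, a3⟩, a4⟩, a5⟩, a6⟩ := hA0 A ((le_max_left _ _).trans hA)
  have hA1 : (1 : ℝ) ≤ A := by linarith
  have hn1 : (1 : ℝ) ≤ n := by exact_mod_cast hn
  obtain ⟨Y, hY⟩ : ∃ Y : ℝ, Y = n * A := ⟨_, rfl⟩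
  have hYA : A ≤ Y := by rw [hY]; nlinarith
  have hY0 : 0 < Y := by linarith
  obtain ⟨S1, hS1, hS1m⟩ := hT0 Y (by linarith)
  have hlog0 : 0 ≤ Real.log A := Real.log_nonneg hA1
  -- the exceptional set
  have hF : ∃ F : Finset ι, (∀ i ∉ F, |xx A (z i) n| ≤ 1) ∧
      ∑ i ∈ F, m i * (Real.cosh (xx A (z i) n) - 1) ≤ c / 120 * Y := by
    rcases le_or_gt Y ((A - 1 / 2) ^ 2) with hcase | hcase
    · refine ⟨∅, fun i _ => ?_, by simp; positivity⟩
      apply xx_le_one_of hA1 (C.re_le i)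
      rw [← hY]
      nlinarith [sq_nonneg (z i).im]
    · refine ⟨(C.finite (Real.sqrt Y)).toFinset, fun i hi => ?_, ?_⟩
      · apply xx_le_one_of hA1 (C.re_le i)
        rw [← hY]
        simp only [Set.Finite.mem_toFinset, Set.mem_ofPred_eq, not_le] at hi
        have h1 : Y ≤ (z i).im ^ 2 := by
          rw [← sq_abs, ← Real.sq_sqrt hY0.le]
          gcongr
        nlinarith [sq_nonneg (A - 1 / 2)]
      · have hYu : Y ≤ κ * A ^ 2 * Real.log A := by
          rw [hY]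
          calc n * A ≤ (κ * A * Real.log A) * A := by gcongr
            _ = _ := by ring
        have hS : ∀ i ∈ (C.finite (Real.sqrt Y)).toFinset, |(z i).im| ≤ A ^ (1 + η) := by
          intro i hi
          simp only [Set.Finite.mem_toFinset, Set.mem_ofPred_eq] at hi
          refine hi.trans ?_
          rw [Real.sqrt_le_left (by positivity)]
          calc Y ≤ κ * A ^ 2 * Real.log A := hYu
            _ = A ^ 2 * (κ * Real.log A) := by ring
            _ ≤ A ^ 2 * A ^ (2 * η) := by gcongr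
            _ = (A ^ (1 + η)) ^ 2 := by
              rw [← Real.rpow_natCast, ← Real.rpow_natCast, ← Real.rpow_mul (by linarith),
                ← Real.rpow_add (by linarith)]
              congr 1
              push_cast
              ring
        have hb : ∀ i ∈ (C.finite (Real.sqrt Y)).toFinset,
            m i * (Real.cosh (xx A (z i) n) - 1) ≤ Real.exp 1 * (m i * A ^ (2 * κ * |(z i).re|)) := by
          intro i _
          have h1 : |xx A (z i) n| ≤ 2 * κ * |(z i).re| * Real.log A + 1 := by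
            have hq : 0 < (A - 1 / 2) ^ 2 := by
              have : 0 < A - 1 / 2 := by linarith
              positivity
            have hr := C.re_le i
            calc |xx A (z i) n| ≤ 2 * n * A * |(z i).re| / ((A - 1 / 2) ^ 2 + (z i).im ^ 2) :=
                  xx_le hA1 (C.re_le i) n
              _ = 2 * Y * |(z i).re| / ((A - 1 / 2) ^ 2 + (z i).im ^ 2) := by rw [hY]; ring
              _ ≤ 2 * (κ * A ^ 2 * Real.log A) * |(z i).re| / ((A - 1 / 2) ^ 2) := by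
                  gcongr
                  nlinarith [sq_nonneg (z i).im]
              _ ≤ 2 * κ * |(z i).re| * Real.log A + 1 := by
                  rw [div_le_iff₀ hq]
                  have h2 : κ * Real.log A * (A ^ 2 - (A - 1 / 2) ^ 2) ≤ (A - 1 / 2) ^ 2 := by
                    calc κ * Real.log A * (A ^ 2 - (A - 1 / 2) ^ 2) ≤ A / 4 * (A ^ 2 - (A - 1 / 2) ^ 2) := by
                          have h3 : 0 ≤ A ^ 2 - (A - 1 / 2) ^ 2 := by nlinarith
                          have h4 : κ * Real.log A ≤ A / 4 := by linarith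
                          gcongr
                      _ ≤ (A - 1 / 2) ^ 2 := by nlinarith
                  have h3 : 0 ≤ |(z i).re| := abs_nonneg _
                  have h4 : 0 ≤ κ * Real.log A * (A ^ 2 - (A - 1 / 2) ^ 2) := by
                    have h3 : 0 ≤ A ^ 2 - (A - 1 / 2) ^ 2 := by nlinarith
                    positivity
                  nlinarith
          calc m i * (Real.cosh (xx A (z i) n) - 1) ≤ m i * Real.exp (2 * κ * |(z i).re| * Real.log A + 1) := by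
                apply mul_le_mul_of_nonneg_left _ (C.m_nonneg i)
                have h2 := cosh_le_exp_abs (xx A (z i) n)
                have h3 := Real.exp_le_exp.mpr h1
                linarith
            _ = _ := by
                rw [Real.exp_add, Real.rpow_def_of_pos (by linarith)]
                ring_nf
        calc ∑ i ∈ (C.finite (Real.sqrt Y)).toFinset, m i * (Real.cosh (xx A (z i) n) - 1)
            ≤ ∑ i ∈ (C.finite (Real.sqrt Y)).toFinset, Real.exp 1 * (m i * A ^ (2 * κ * |(z i).re|)) :=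
              Finset.sum_le_sum hb
          _ = Real.exp 1 * ∑ i ∈ (C.finite (Real.sqrt Y)).toFinset, m i * A ^ (2 * κ * |(z i).re|) := by
              rw [Finset.mul_sum]
          _ ≤ Real.exp 1 * (D * A ^ (2 - η)) := by
              gcongr
              exact hD A hA1 _ hS
          _ = Real.exp 1 * D * A ^ (-η) * A ^ 2 := by
              rw [sub_eq_add_neg, Real.rpow_add (by linarith)]
              norm_num
              ring
          _ ≤ Real.exp 1 * D * A ^ (-η) * (4 * Y) := by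
              have : A ^ 2 ≤ 4 * Y := by nlinarith
              gcongr
          _ = (Real.exp 1 * D * 4 * A ^ (-η)) * Y := by ring
          _ ≤ c / 120 * Y := by gcongr
  obtain ⟨F, hF1, hF2⟩ := hF
  have hmain := C.lam_eq hA1 n
  rw [← hY]
  refine ge_of_tendsto (hmain) ?_
  classical
  filter_upwards [eventually_ge_atTop (S1 ∪ F)] with S hS
  have hS1S : S1 ⊆ S := Finset.subset_union_left.trans hS
  have hFS : F ⊆ S := Finset.subset_union_right.trans hS
  have hcs1 : ∀ i, 0 ≤ 1 - cs A (z i) n := fun i => by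
    have := Real.cos_le_one (n * (W A (z i)).arg)
    unfold cs
    linarith
  have t1 : c / 30 * Y ≤ ∑ i ∈ S, m i * (1 - cs A (z i) n) := by
    calc c / 30 * Y = (c * Y) * (1 / 30) := by ring
      _ ≤ (∑ i ∈ S1, m i) * (1 / 30) := by gcongr
      _ = ∑ i ∈ S1, m i * (1 / 30) := by rw [Finset.sum_mul]
      _ ≤ ∑ i ∈ S1, m i * (1 - cs A (z i) n) := by
          apply Finset.sum_le_sum
          intro i hi
          obtain ⟨h1, h2⟩ := hS1 i hi
          rw [hY] at h1 h2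
          exact mul_le_mul_of_nonneg_left (main_low a1 (C.re_le i) hn h1 h2) (C.m_nonneg i)
      _ ≤ ∑ i ∈ S, m i * (1 - cs A (z i) n) :=
          Finset.sum_le_sum_of_subset_of_nonneg hS1S fun i _ _ => mul_nonneg (C.m_nonneg i) (hcs1 i)
  have t2 : ∑ i ∈ S, m i * (Real.cosh (xx A (z i) n) - 1) ≤ c / 120 * Y + c / 120 * Y := by
    rw [← Finset.sum_sdiff hFS]
    have t3 : ∑ i ∈ S \ F, m i * (Real.cosh (xx A (z i) n) - 1) ≤ c / 120 * Y := by
      calc ∑ i ∈ S \ F, m i * (Real.cosh (xx A (z i) n) - 1)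
          ≤ ∑ i ∈ S \ F, (8 * Y) ^ (3 / 4 : ℝ) * (m i / (1 + |(z i).im|) ^ (3 / 2 : ℝ)) := by
            apply Finset.sum_le_sum
            intro i hi
            have h1 := near_bound hA1 (C.re_le i) (hF1 i (Finset.mem_sdiff.mp hi).2)
            calc m i * (Real.cosh (xx A (z i) n) - 1) ≤
                m i * ((8 * (n * A)) ^ (3 / 4 : ℝ) / (1 + |(z i).im|) ^ (3 / 2 : ℝ)) :=
                  mul_le_mul_of_nonneg_left h1 (C.m_nonneg i)
              _ = _ := by rw [hY]; ring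
        _ = (8 * Y) ^ (3 / 4 : ℝ) * ∑ i ∈ S \ F, m i / (1 + |(z i).im|) ^ (3 / 2 : ℝ) := by
            rw [Finset.mul_sum]
        _ ≤ (8 * Y) ^ (3 / 4 : ℝ) * B0 := by
            apply mul_le_mul_of_nonneg_left _ (by positivity)
            rw [hB0]
            exact hsum.sum_le_tsum _ fun i _ => div_nonneg (C.m_nonneg i) (by positivity)
        _ = ((8 : ℝ) ^ (3 / 4 : ℝ) * B0) * Y ^ (3 / 4 : ℝ) := by
            rw [Real.mul_rpow (by norm_num) hY0.le]
            ring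
        _ ≤ (c / 120 * A ^ (1 / 4 : ℝ)) * Y ^ (3 / 4 : ℝ) := by gcongr
        _ ≤ (c / 120 * Y ^ (1 / 4 : ℝ)) * Y ^ (3 / 4 : ℝ) := by gcongr
        _ = c / 120 * Y := by
            rw [mul_assoc, ← Real.rpow_add hY0]
            norm_num
    linarith
  have t4 : ∑ i ∈ S, m i * (((1 - W A (z i) ^ n).re + (1 - W A (-conj (z i)) ^ n).re) / 2) ≥
      ∑ i ∈ S, m i * (1 - cs A (z i) n) - ∑ i ∈ S, m i * (Real.cosh (xx A (z i) n) - 1) := by
    rw [← Finset.sum_sub_distrib]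
    apply Finset.sum_le_sum
    intro i _
    have h1 := pair_low hA1 (C.re_le i) n
    calc m i * (1 - cs A (z i) n) - m i * (Real.cosh (xx A (z i) n) - 1) =
        m i * ((1 - cs A (z i) n) - (Real.cosh (xx A (z i) n) - 1)) := by ring
      _ ≤ _ := mul_le_mul_of_nonneg_left h1 (C.m_nonneg i)
  linarith

end Pool.Agent.V11271.LI
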